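import Pool.Agent.Lib.MP_1a91b9_nuY.BF.BaseY
import Pool.Agent.Lib.MP_1a91b9_nuY.BF.Mod
import Pool.Agent.Lib.MP_1a91b9_nuY.TX.Fr
import Pool.Agent.Lib.MP_1a91b9_nuX.QW.ScB
import Pool.Agent.Lib.MP_1a91b9_nuX.TH.Dat

/-!
# The base field of the forms
-/

set_option autoImplicit false
set_option linter.unusedSectionVars false

namespace Pool.Agent.Lib.MP_1a91b9_nuY.TF

variable [Pool.Agent.Lib.MP_1a91b9_nuT.CD]

open NumberField IsDedekindDomain WeierstrassCurve Pool.Agent.Lib.MP_1a91b9_nuT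
open Pool.Agent.Lib.MP_1a91b9_nuX Pool.Agent.Lib.MP_1a91b9_nuX.DB Pool.Agent.Lib.MP_1a91b9_nuX.DG
open Pool.Agent.Lib.MP_1a91b9_nuX.TG (gB nAb nAb_ne dvd_nAb f_dvd_gB six_dvd_gB AbT)
open Pool.Agent.Lib.MP_1a91b9_nuX.TH (nG nG_ne gB_dvd_nG)
open Pool.Agent.Lib.MP_1a91b9_nuX.QW (ScD exists_theta)
open Pool.Agent.Lib.MP_1a91b9_nuX.GL (EllK)
open Pool.Agent.Lib.MP_1a91b9_nuY.TS Pool.Agent.Lib.MP_1a91b9_nuY.TX
open Pool.Agent.Lib.MP_1a91b9_nuY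

noncomputable section

variable [HC]

/-- a modulus for which all the places of the natural number `nG μ` divide `μ` -/
private theorem bas_pl {μ : 𝓞 K} (hM : Md μ) (hD : cj HC.f ∣ μ)
    (hv : ∀ v : HeightOneSpectrum (𝓞 K), gB μ ∈ v.asIdeal → μ ∈ v.asIdeal)
    (v : HeightOneSpectrum (𝓞 K)) (h : ((nG μ : ℕ) : 𝓞 K) ∈ v.asIdeal) : μ ∈ v.asIdeal := by
  have hp := v.isPrime
  have h1 : ((nG μ : ℕ) : 𝓞 K) = gB μ * cj (gB μ) := (mul_cj (gB μ)).symm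
  rw [h1] at h
  rcases hp.mem_or_mem h with h2 | h2
  · exact hv v h2
  · have h3 : cj (gB μ) = cj HC.f * (((CD.bad : ℤ) : 𝓞 K) * (nAb μ : 𝓞 K)) := by
      have h4 : gB μ = HC.f * (((CD.bad : ℤ) : 𝓞 K) * (nAb μ : 𝓞 K)) := rfl
      rw [h4, map_mul, map_mul, map_intCast, map_natCast]
    rw [h3] at h2
    rcases hp.mem_or_mem h2 with h4 | h4
    · exact v.asIdeal.mem_of_dvd hD h4
    · exact hv v (v.asIdeal.mul_mem_left _ h4)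

/-- **The base field of the forms.** -/
theorem exists_baseY {F₀ L₀ : Type} [Field F₀] [NumberField F₀] [Algebra K F₀]
    [Field L₀] [NumberField L₀] [Algebra K L₀] [Algebra F₀ L₀] [IsScalarTower K F₀ L₀]
    [DecidableEq L₀] {T₀ : Pt L₀} {n : ℕ} (hn : n ≠ 0) (hT : n • T₀ = 0)
    (hgen : IntermediateField.adjoin K {xc T₀, yc T₀} = ⊤) {a b : F₀} {u : L₀} (hu : u ≠ 0)
    (ha : algebraMap F₀ L₀ a = (CD.A : L₀) * u ^ 4)
    (hb : algebraMap F₀ L₀ b = (CD.B : L₀) * u ^ 6) :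
    ∃ (μ : 𝓞 K) (g : ℕ) (G : Type) (_ : Field G) (_ : NumberField G) (_ : Algebra K G)
      (_ : Algebra F₀ G) (_ : IsScalarTower K F₀ G) (_ : DecidableEq G) (_ : IsGalois K G)
      (_ : IsGalois F₀ G) (J : Pt G) (u' : G) (θ : Gal(G/F₀) →* (𝓞 K)ˣ),
      AbT μ K J ∧ ScD a b u' θ ∧ g ≠ 0 ∧ gB μ ∣ (g : 𝓞 K) ∧
      (LGoodY F₀ (psT F₀ J (g : 𝓞 K) θ) → ∃ B : ℕ, ∀ ℓ : ℕ, ℓ.Prime → B < ℓ →
        BaseY (g : 𝓞 K) ℓ F₀ G (fun s => (((θ s)⁻¹ : (𝓞 K)ˣ) : 𝓞 K))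
          (psT F₀ J (g : 𝓞 K) θ)) := by
  have hf0 : cj HC.f ≠ 0 := by
    intro h
    have h1 := mul_cj HC.f
    rw [h, mul_zero] at h1
    exact nAb_ne HC.hd.ne (by exact_mod_cast h1.symm)
  obtain ⟨μ, hM, hD, hv, H, G, i1, i2, i3, i4, i5, i6, J, hAB0⟩ :=
    BF.exists_abD L₀ hn hT hgen hf0
  letI a1 : Algebra F₀ G := ((algebraMap L₀ G).comp (algebraMap F₀ L₀)).toAlgebra
  have t0 : IsScalarTower F₀ L₀ G := IsScalarTower.of_algebraMap_eq fun x => rfl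
  have t1 : IsScalarTower K F₀ G := IsScalarTower.of_algebraMap_eq fun x => by
    rw [IsScalarTower.algebraMap_apply F₀ L₀ G, ← IsScalarTower.algebraMap_apply K F₀ L₀,
      ← IsScalarTower.algebraMap_apply K L₀ G]
  have hgK : IsGalois K G := hAB0.gal
  have hgF : IsGalois F₀ G := IsGalois.tower_top_of_isGalois K F₀ G
  have hAB : AB H F₀ G J := ⟨hAB0.gal, hAB0.ne, hAB0.ord, hAB0.gen, hAB0.mem, hAB0.surj⟩
  have hTK : AbT μ K J := ⟨hAB.ne, hAB.ord, hAB.gen⟩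
  have hTF : AbT μ F₀ J := hTK.mid
  have hu' : algebraMap L₀ G u ≠ 0 := by rwa [Ne, map_eq_zero]
  obtain ⟨θ, hs⟩ := exists_theta (N := F₀) (L := G) (a := a) (b := b) hu'
    (by rw [IsScalarTower.algebraMap_apply F₀ L₀ G, ha, map_mul, map_pow, map_intCast])
    (by rw [IsScalarTower.algebraMap_apply F₀ L₀ G, hb, map_mul, map_pow, map_intCast])
  have hg0 : nG μ ≠ 0 := nG_ne hAB.ne
  have hg0' : ((nG μ : ℕ) : 𝓞 K) ≠ 0 := Nat.cast_ne_zero.2 hg0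
  have hg := gB_dvd_nG μ
  refine ⟨μ, nG μ, G, i1, i2, i3, a1, t1, i6, hgK, hgF, J, algebraMap L₀ G u, θ, hTK, hs, hg0, hg,
    fun hL => ?_⟩
  exact BF.baseY_large hAB hM (kap_kth θ) (hf_psT hTF hg0' hg) ((f_dvd_gB μ).trans hg)
    ((six_dvd_gB μ).trans hg) (frK_psT hTF hg) (bas_pl hM hD hv) (ur_psT hTF hg) hL

end

end Pool.Agent.Lib.MP_1a91b9_nuY.TF
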