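import Pool.Agent.Lib.MP_1a91b9_nuY.TF.Sub
import Pool.Agent.Lib.MP_1a91b9_nuY.TX.Alg

/-!
# Twisted base: the curve over the fields of the tower
-/

set_option autoImplicit false

namespace Pool.Agent.Lib.MP_1a91b9_nuY.TF

open NumberField IsDedekindDomain WeierstrassCurve Module
open Pool.Agent.Lib.MP_1a91b9_nuT hiding cj
open Pool.Agent.Lib.MP_1a91b9_nuX Pool.Agent.Lib.MP_1a91b9_nuX.QW
open Pool.Agent.Lib.MP_1a91b9_nuX.DB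
open Pool.Agent.Lib.MP_1a91b9_nuT.Per (cv)
open Pool.Agent.Lib.MP_1a91b9_nuY.TX (TowF BaseY)

variable [CD] [HC] {g ℓ : ℕ} [hℓ : Fact ℓ.Prime] {F₀ G₀ : Type} [Field F₀]
  [NumberField F₀] [Algebra K F₀] [Field G₀] [NumberField G₀] [Algebra K G₀] [Algebra F₀ G₀]
  [IsScalarTower K F₀ G₀] [IsGalois F₀ G₀] [DecidableEq G₀] {T : Pt G₀} {a b : F₀} {u : G₀}
  {θ : Gal(G₀/F₀) →* (𝓞 K)ˣ}

/-- **The curve over the fields of the tower.** -/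
theorem gy_of (hs : ScD a b u θ)
    (hB : BaseY (g : 𝓞 K) ℓ F₀ G₀ (fun s => (((θ s)⁻¹ : (𝓞 K)ˣ) : 𝓞 K)) (psT F₀ T (g : 𝓞 K) θ))
    {F : Type} [Field F] [NumberField F] [Algebra K F] [Algebra F₀ F] [IsScalarTower K F₀ F]
    (h : TowF F₀ (psT F₀ T (g : 𝓞 K) θ) ℓ F) :
    GY ℓ F₀ F (psT F₀ T (g : 𝓞 K) θ) (cv a b) := by
  have h1 := TX.goodY_of (θ := θ) hB hs h
  exact ⟨h1.unitZ, h1.wok, h1.fin, h1.cop, h1.sha⟩

end Pool.Agent.Lib.MP_1a91b9_nuY.TF
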