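import Pool.Agent.Lib.MP_1a91b9_nuT.BaseK

/-!
# Twisted base: the compositum of `F = N F₀` and of an extension of `F₀` which is Galois over `K`
-/

set_option autoImplicit false

namespace Pool.Agent.Lib.MP_1a91b9_nuY.TF

variable [Pool.Agent.Lib.MP_1a91b9_nuT.CD]

open NumberField Module IntermediateField Pool.Agent.Lib.MP_1a91b9_nuT

universe u

/-- The compositum `G` of `F = N F₀` and of the Galois extension `G₀` of `K` which contains `F₀`. -/
theorem exists_compT (N F F₀ G₀ : Type u) [Field N] [NumberField N] [Algebra K N] [Field F]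
    [NumberField F] [Algebra K F] [Field F₀] [NumberField F₀] [Algebra K F₀] [Field G₀]
    [NumberField G₀] [Algebra K G₀] [Algebra N F] [Algebra F₀ F] [Algebra F₀ G₀]
    [IsScalarTower K N F] [IsScalarTower K F₀ F] [IsScalarTower K F₀ G₀] [IsGalois K G₀]
    (hgen : IntermediateField.adjoin N (Set.range (algebraMap F₀ F)) = ⊤) :
    ∃ (G : Type u) (_ : Field G) (_ : NumberField G) (_ : Algebra K G) (_ : Algebra N G)
      (_ : Algebra F G) (_ : Algebra G₀ G) (_ : Algebra F₀ G), IsScalarTower K N G ∧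
      IsScalarTower K F G ∧ IsScalarTower N F G ∧ IsScalarTower K G₀ G ∧ IsScalarTower K F₀ G ∧
      IsScalarTower F₀ F G ∧ IsScalarTower F₀ G₀ G ∧ IsGalois N G ∧
      IntermediateField.adjoin N (Set.range (algebraMap G₀ G)) = ⊤ ∧
      ∀ σ : Gal(G/N), (∀ x : G₀, σ (algebraMap G₀ G x) = algebraMap G₀ G x) → σ = 1 := by
  have hfd : FiniteDimensional K G₀ := Module.Finite.of_restrictScalars_finite ℚ K G₀
  have hfd2 : FiniteDimensional F₀ G₀ := Module.Finite.of_restrictScalars_finite ℚ F₀ G₀
  have hfd3 : FiniteDimensional N F := Module.Finite.of_restrictScalars_finite ℚ N F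
  have hfd4 : FiniteDimensional K N := Module.Finite.of_restrictScalars_finite ℚ K N
  let Ω := AlgebraicClosure F
  have s1 : IsScalarTower K F Ω := inferInstance
  have s2 : IsScalarTower N F Ω := inferInstance
  have s3 : IsScalarTower F₀ F Ω := inferInstance
  have s4 : IsScalarTower K N Ω := IsScalarTower.of_algebraMap_eq fun x => by
    rw [IsScalarTower.algebraMap_apply K F Ω, IsScalarTower.algebraMap_apply K N F,
      ← IsScalarTower.algebraMap_apply N F Ω]
  have s5 : IsScalarTower K F₀ Ω := IsScalarTower.of_algebraMap_eq fun x => by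
    rw [IsScalarTower.algebraMap_apply K F Ω, IsScalarTower.algebraMap_apply K F₀ F,
      ← IsScalarTower.algebraMap_apply F₀ F Ω]
  have hal : Algebra.IsAlgebraic N Ω := Algebra.IsAlgebraic.trans N F Ω
  have hac : IsAlgClosure N Ω := ⟨inferInstance, hal⟩
  have hno : Normal N Ω := IsAlgClosure.normal N Ω
  let ι : G₀ →ₐ[F₀] Ω := IsAlgClosed.lift
  let ιK : G₀ →ₐ[K] Ω := ι.restrictScalars K
  obtain ⟨θ, hθ⟩ := Field.exists_primitive_element K G₀
  let L : IntermediateField N Ω := N⟮ι θ⟯
  have hint : IsIntegral N (ι θ) := (hal.isAlgebraic (ι θ)).isIntegral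
  have hfL : FiniteDimensional N L := adjoin.finiteDimensional hint
  have hnf : NumberField L := NumberField.of_module_finite N L
  have hmem : ∀ x : G₀, ι x ∈ L := by
    intro x
    have h1 : x ∈ (K⟮θ⟯ : IntermediateField K G₀) := by rw [hθ]; exact mem_top
    have h2 : ιK x ∈ (K⟮θ⟯ : IntermediateField K G₀).map ιK := ⟨x, h1, rfl⟩
    rw [adjoin_map, Set.image_singleton] at h2
    have h3 : K⟮ιK θ⟯ ≤ L.restrictScalars K := by
      rw [adjoin_simple_le_iff]
      exact mem_adjoin_simple_self N (ι θ)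
    exact h3 h2
  have hmemF : ∀ y : F, algebraMap F Ω y ∈ L := by
    intro y
    have h1 : y ∈ IntermediateField.adjoin N (Set.range (algebraMap F₀ F)) := by
      rw [hgen]; exact mem_top
    have h2 : IsScalarTower.toAlgHom N F Ω y ∈ (IntermediateField.adjoin N
        (Set.range (algebraMap F₀ F))).map (IsScalarTower.toAlgHom N F Ω) := ⟨y, h1, rfl⟩
    rw [adjoin_map] at h2
    have h3 : IntermediateField.adjoin N
        ((IsScalarTower.toAlgHom N F Ω) '' (Set.range (algebraMap F₀ F))) ≤ L := by
      rw [adjoin_le_iff]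
      rintro _ ⟨_, ⟨x, rfl⟩, rfl⟩
      have h4 : IsScalarTower.toAlgHom N F Ω (algebraMap F₀ F x) = ι (algebraMap F₀ G₀ x) := by
        rw [ι.commutes]
        exact (IsScalarTower.algebraMap_apply F₀ F Ω x).symm
      rw [h4]
      exact hmem _
    exact h3 h2
  let aFL : Algebra F L := ((algebraMap F Ω).codRestrict L.toSubalgebra.toSubring hmemF).toAlgebra
  let aGL : Algebra G₀ L :=
    (ι.toRingHom.codRestrict L.toSubalgebra.toSubring hmem).toAlgebra
  let aF₀L : Algebra F₀ L := ((algebraMap F L).comp (algebraMap F₀ F)).toAlgebra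
  have hcF : ∀ y : F, ((algebraMap F L y : L) : Ω) = algebraMap F Ω y := fun y => rfl
  have hcL : ∀ y : G₀, ((algebraMap G₀ L y : L) : Ω) = ι y := fun y => rfl
  have hcN : ∀ y : N, ((algebraMap N L y : L) : Ω) = algebraMap N Ω y := fun y => rfl
  have hcK : ∀ y : K, ((algebraMap K L y : L) : Ω) = algebraMap K Ω y := fun y => rfl
  have hcF₀ : ∀ y : F₀, algebraMap F₀ L y = algebraMap F L (algebraMap F₀ F y) := fun y => rfl
  have t1 : IsScalarTower K N L := IsScalarTower.of_algebraMap_eq fun x => Subtype.ext (by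
    rw [hcK, hcN]
    exact IsScalarTower.algebraMap_apply K N Ω x)
  have t2 : IsScalarTower K F L := IsScalarTower.of_algebraMap_eq fun x => Subtype.ext (by
    rw [hcK, hcF]
    exact IsScalarTower.algebraMap_apply K F Ω x)
  have t3 : IsScalarTower N F L := IsScalarTower.of_algebraMap_eq fun x => Subtype.ext (by
    rw [hcN, hcF]
    exact IsScalarTower.algebraMap_apply N F Ω x)
  have t4 : IsScalarTower K G₀ L := IsScalarTower.of_algebraMap_eq fun x => Subtype.ext (by
    rw [hcK, hcL]
    exact (ιK.commutes x).symm)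
  have t5 : IsScalarTower F₀ F L := IsScalarTower.of_algebraMap_eq fun x => rfl
  have t6 : IsScalarTower F₀ G₀ L := IsScalarTower.of_algebraMap_eq fun x => Subtype.ext (by
    rw [hcF₀, hcF, hcL, ι.commutes]
    exact (IsScalarTower.algebraMap_apply F₀ F Ω x).symm)
  have t7 : IsScalarTower K F₀ L := IsScalarTower.of_algebraMap_eq fun x => by
    rw [hcF₀, ← IsScalarTower.algebraMap_apply K F₀ F]
    exact IsScalarTower.algebraMap_apply K F L x
  have hgal : IsGalois N L := by
    have hnorm : Normal N L := by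
      rw [normal_iff_forall_map_le]
      intro σ
      change (N⟮ι θ⟯).map σ ≤ L
      rw [adjoin_map, Set.image_singleton, adjoin_simple_le_iff]
      have hE : Normal K ιK.fieldRange :=
        Normal.of_algEquiv (AlgEquiv.ofInjectiveField ιK)
      let f : ιK.fieldRange →ₐ[K] Ω := (σ.restrictScalars K).comp ιK.fieldRange.val
      have h1 : f.fieldRange = ιK.fieldRange := AlgHom.fieldRange_of_normal f
      have h2 : σ (ι θ) ∈ f.fieldRange := ⟨⟨ι θ, ⟨θ, rfl⟩⟩, rfl⟩
      rw [h1] at h2
      obtain ⟨y, hy⟩ := h2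
      rw [← hy]
      exact hmem y
    exact ⟨⟩
  have htop : IntermediateField.adjoin N (Set.range (algebraMap G₀ L)) = ⊤ := by
    have h1 : (⊤ : IntermediateField N L) = IntermediateField.adjoin N
        {(⟨ι θ, hmem θ⟩ : L)} := by
      rw [eq_comm, eq_top_iff]
      intro y _
      have h2 : (y : Ω) ∈ (IntermediateField.adjoin N {(⟨ι θ, hmem θ⟩ : L)}).map L.val := by
        rw [adjoin_map, Set.image_singleton]
        exact y.2
      obtain ⟨z, hz, hzy⟩ := h2
      have h5 : z = y := Subtype.ext hzy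
      rw [← h5]
      exact hz
    rw [eq_top_iff, h1, adjoin_le_iff]
    rintro _ rfl
    exact subset_adjoin N _ ⟨θ, rfl⟩
  refine ⟨L, inferInstance, hnf, inferInstance, inferInstance, aFL, aGL, aF₀L, t1, t2, t3, t4, t7,
    t5, t6, hgal, htop, fun σ hσ => ?_⟩
  have h1 : ∀ y : L, y ∈ IntermediateField.adjoin N (Set.range (algebraMap G₀ L)) →
      σ y = y := by
    intro y hy
    induction hy using IntermediateField.adjoin_induction with
    | mem x hx =>
      obtain ⟨z, rfl⟩ := hx
      exact hσ z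
    | algebraMap x => exact σ.commutes x
    | add x y _ _ hx hy => rw [map_add, hx, hy]
    | inv x _ hx => rw [map_inv₀, hx]
    | mul x y _ _ hx hy => rw [map_mul, hx, hy]
  ext y
  rw [h1 y (by rw [htop]; exact mem_top)]
  rfl

end Pool.Agent.Lib.MP_1a91b9_nuY.TF
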