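import Pool.Agent.Lib.MP_1a91b9_nuY.ZD.PsT

/-!
# Twisted base: the character over a compositum

`psT_comp`: the Hecke character of the twist over an extension `F` of `F₀`, in terms of the compositum `G` of `F` and `G₀`,
is the composite of the Hecke character over `F₀` and the norm.
-/

set_option autoImplicit false

namespace Pool.Agent.Lib.MP_1a91b9_nuY.TF

variable [Pool.Agent.Lib.MP_1a91b9_nuT.CD]

open Pool.Agent.Lib.MP_1a91b9_nuT hiding cj
open NumberField IsDedekindDomain Module Pool.Agent.Lib.MP_1a91b9_nuG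
open Pool.Agent.Lib.MP_1a91b9_nuX Pool.Agent.Lib.MP_1a91b9_nuX.DB Pool.Agent.Lib.MP_1a91b9_nuX.DX
open Pool.Agent.Lib.MP_1a91b9_nuX.TG Pool.Agent.Lib.MP_1a91b9_nuX.TC
open Pool.Agent.Lib.MP_1a91b9_nuX.AN
open Pool.Agent.Lib.MP_1a91b9_nuX.QW (span_le_gB ScD)
open Pool.Agent.Lib.MP_1a91b9_nuT.S4 (ne_zero_of_coprime)

universe u

variable [HC]

section
variable {μ g : 𝓞 K} {F₀ F G₀ G : Type u} [Field F₀] [NumberField F₀] [Algebra K F₀] [Field F]
  [NumberField F] [Algebra K F] [Field G₀] [NumberField G₀] [Algebra K G₀] [Field G]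
  [NumberField G] [Algebra K G] [Algebra F₀ F] [Algebra F₀ G₀] [Algebra F₀ G] [Algebra F G]
  [Algebra G₀ G] [IsScalarTower K F₀ F] [IsScalarTower K F₀ G₀] [IsScalarTower K F₀ G]
  [IsScalarTower K F G] [IsScalarTower K G₀ G] [IsScalarTower F₀ F G] [IsScalarTower F₀ G₀ G]
  [DecidableEq G₀] [DecidableEq G] [IsGalois F₀ G₀] [IsGalois F G] {T : Pt G₀}

/-- the Artin maps -/
theorem art_comp (hT : AbT μ F₀ T) (hT' : AbT μ F (DX.up G T)) (hg : gB μ ∣ g)
    (I : Ideal (𝓞 F)) (hI0 : I ≠ 0) (hI : IsCoprime I (Ideal.span {MP_1a91b9_nuG.up g F})) :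
    rs G₀ (toF F₀ (art F (DX.up G T) I)) = art F₀ T (Ideal.relNorm (𝓞 F₀) I) := by
  symm
  apply art_eq hT
  rw [← up_inj G, ← ga_up, ga_toF, art_spec (exists_art hT' (span_le_gB (N := F) hg) I hI0 hI),
    up_sm, psi, psi, Ideal.relNorm_relNorm]

/-- **The character of the twist over an extension of the base field.** -/
theorem psT_comp (hT : AbT μ F₀ T) (hT' : AbT μ F (DX.up G T)) (hg0 : g ≠ 0) (hg : gB μ ∣ g)
    (θ₀ : Gal(G₀/F₀) →* (𝓞 K)ˣ) (θ : Gal(G/F) →* (𝓞 K)ˣ)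
    (h : ∀ σ : Gal(G/F), θ σ = θ₀ (rs G₀ (toF F₀ σ))) :
    psT F (DX.up G T) g θ = fun I => psT F₀ T g θ₀ (Ideal.relNorm (𝓞 F₀) I) := by
  funext I
  by_cases hI : IsCoprime I (Ideal.span {MP_1a91b9_nuG.up g F})
  · have hI0 : I ≠ 0 := ne_zero_of_coprime (hf_psT (θ := θ) hT' hg0 hg).up_ne_top hI
    rw [psT_of hI, psT_of (relNorm_cop g I hI), h, art_comp hT hT' hg I hI0 hI, psi, psi,
      Ideal.relNorm_relNorm]
  · rw [psT_of_not hI, psT_of_not (relNorm_not_cop g I hI)]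

end

section
variable {N F F₀ G₀ G : Type u} [Field N] [NumberField N] [Algebra K N] [Field F₀]
  [NumberField F₀] [Algebra K F₀] [Field F]
  [NumberField F] [Algebra K F] [Field G₀] [NumberField G₀] [Algebra K G₀] [Field G]
  [NumberField G] [Algebra K G] [Algebra N F] [Algebra N G] [Algebra F₀ F] [Algebra F₀ G₀]
  [Algebra F₀ G] [Algebra F G] [Algebra G₀ G] [IsScalarTower K N F] [IsScalarTower K N G]
  [IsScalarTower K F₀ F] [IsScalarTower K F₀ G₀] [IsScalarTower K F₀ G]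
  [IsScalarTower K F G] [IsScalarTower K G₀ G] [IsScalarTower N F G] [IsScalarTower F₀ F G]
  [IsScalarTower F₀ G₀ G] [IsGalois F₀ G₀]

omit [HC] [IsScalarTower K N F] in
/-- The form `y² = x³ + a x + b` over `N` of the form `y² = x³ + a₀ x + b₀` over `F₀`. -/
theorem exists_sc {a₀ b₀ : F₀} {u₀ : G₀} {θ₀ : Gal(G₀/F₀) →* (𝓞 K)ˣ} (hs : ScD a₀ b₀ u₀ θ₀)
    {a b : N} {c : F} (hc : c ≠ 0) (ha : algebraMap N F a = c ^ 4 * algebraMap F₀ F a₀)
    (hb : algebraMap N F b = c ^ 6 * algebraMap F₀ F b₀) :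
    ∃ (u : G) (θ : Gal(G/N) →* (𝓞 K)ˣ), ScD a b u θ ∧
      ∀ σ : Gal(G/F), θ (toFH N F G σ) = θ₀ (rs G₀ (toF F₀ σ)) := by
  obtain ⟨u, hu⟩ : ∃ u : G, u = algebraMap F G c * algebraMap G₀ G u₀ := ⟨_, rfl⟩
  have hu0 : u ≠ 0 := by
    rw [hu]
    exact mul_ne_zero ((map_ne_zero _).2 hc) ((map_ne_zero _).2 hs.ne)
  have ha₀ : algebraMap F₀ G a₀ = (CD.A : G) * algebraMap G₀ G u₀ ^ 4 := by
    rw [IsScalarTower.algebraMap_apply F₀ G₀ G, hs.ha, map_mul, map_pow, map_intCast]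
  have hb₀ : algebraMap F₀ G b₀ = (CD.B : G) * algebraMap G₀ G u₀ ^ 6 := by
    rw [IsScalarTower.algebraMap_apply F₀ G₀ G, hs.hb, map_mul, map_pow, map_intCast]
  have ha' : algebraMap N G a = (CD.A : G) * u ^ 4 := by
    rw [IsScalarTower.algebraMap_apply N F G, ha, map_mul, map_pow,
      ← IsScalarTower.algebraMap_apply F₀ F G, ha₀, hu]
    ring
  have hb' : algebraMap N G b = (CD.B : G) * u ^ 6 := by
    rw [IsScalarTower.algebraMap_apply N F G, hb, map_mul, map_pow,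
      ← IsScalarTower.algebraMap_apply F₀ F G, hb₀, hu]
    ring
  obtain ⟨θ, hθ⟩ := QW.exists_theta (N := N) (L := G) (a := a) (b := b) hu0 ha' hb'
  refine ⟨u, θ, hθ, fun σ => ?_⟩
  have h1 := hθ.th (toFH N F G σ)
  have h2 : σ u = algebraMap K G (((θ₀ (rs G₀ (toF F₀ σ)) : (𝓞 K)ˣ) : 𝓞 K) : K) * u := by
    have h3 := hs.th (rs G₀ (toF F₀ σ))
    have h4 := rs_apply (N := G₀) (toF F₀ σ) u₀
    rw [h3, map_mul, ← IsScalarTower.algebraMap_apply K G₀ G, toF_apply] at h4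
    rw [hu, map_mul, σ.commutes, ← h4]
    ring
  have h5 : (toFH N F G σ) u = σ u := rfl
  rw [h5, h2] at h1
  have h6 := mul_right_cancel₀ hu0 h1
  exact (Units.ext (RingOfIntegers.ext ((algebraMap K G).injective h6))).symm

end

end Pool.Agent.Lib.MP_1a91b9_nuY.TF
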