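import Pool.Agent.Lib.MP_1a91b9_nuX.QW.GluK
import Pool.Agent.Lib.MP_1a91b9_nuW.TH.Gda
import Pool.Agent.Lib.MP_1a91b9_nuY.ZD.Cmp
import Pool.Agent.Lib.MP_1a91b9_nuY.TF.Comp
import Pool.Agent.Lib.MP_1a91b9_nuY.TF.Psi

/-!
# Twisted base: the data of the forms

`exists_form`: the curve `W₀ : y² = x³ + a₀ x + b₀` over `F₀` becomes isomorphic to the curve of `CD` over the field `G₀` of a
torsion point; `F = N F₀`, and the curve `y² = x³ + a x + b` over `N` becomes isomorphic to `W₀` over `F`.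
-/

set_option autoImplicit false

namespace Pool.Agent.Lib.MP_1a91b9_nuY.TF

open NumberField IsDedekindDomain WeierstrassCurve Module
open Pool.Agent.Lib.MP_1a91b9_nuT hiding cj
open Pool.Agent.Lib.MP_1a91b9_nuX Pool.Agent.Lib.MP_1a91b9_nuX.QW
open Pool.Agent.Lib.MP_1a91b9_nuW.ZD (VAL WOk)
open Pool.Agent.Lib.MP_1a91b9_nuX.DB Pool.Agent.Lib.MP_1a91b9_nuX.DX Pool.Agent.Lib.MP_1a91b9_nuX.GL
open Pool.Agent.Lib.MP_1a91b9_nuG (up)
open Pool.Agent.Lib.MP_1a91b9_nuX.PG (Gd)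
open Pool.Agent.Lib.MP_1a91b9_nuX.PH (AbW Fm)
open Pool.Agent.Lib.MP_1a91b9_nuX.TG Pool.Agent.Lib.MP_1a91b9_nuX.TC
open Pool.Agent.Lib.MP_1a91b9_nuX.TH (ChW)
open Pool.Agent.Lib.MP_1a91b9_nuX.AN
open Pool.Agent.Lib.MP_1a91b9_nuT.Per (cv)

variable [CD] [HC]

section
variable {N G : Type} [Field N] [NumberField N] [Algebra K N] [Field G] [NumberField G]
  [Algebra K G] [Algebra N G] [IsScalarTower K N G]

omit [HC] [NumberField N] [NumberField G] [Algebra K N] [IsScalarTower K N G] in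
/-- the form becomes isomorphic to the curve of `CD` -/
theorem sc_curve {a b : N} {u : G} {θ : Gal(G/N) →* (𝓞 K)ˣ} (hs : ScD a b u θ)
    {W : WeierstrassCurve N} {D : VariableChange N} (hD : D • W = cv a b) :
    ∃ D₀ : VariableChange G, D₀ • W.map (algebraMap N G) = E G := by
  obtain ⟨C, hC⟩ := LF.exists_scale (cA G) (cB G) u hs.ne
  refine ⟨C⁻¹ * D.map (algebraMap N G), ?_⟩
  rw [mul_smul, WeierstrassCurve.map_variableChange, hD, inv_smul_eq_iff]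
  have h1 : (cv a b).map (algebraMap N G) = LF.crv (algebraMap N G a) (algebraMap N G b) :=
    LF.crv_map _ a b
  have h2 : E G = LF.crv (cA G) (cB G) := rfl
  rw [h1, h2, hC, hs.ha, hs.hb, mul_comm (u ^ 4), mul_comm (u ^ 6)]

omit [CD] [HC] in
/-- the restriction to the same field -/
theorem rs_self (N G : Type) [Field N] [Field G] [Algebra N G] [Normal N G] :
    (AlgEquiv.restrictNormalHom G : Gal(G/N) →* Gal(G/N)) = MonoidHom.id _ := by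
  ext σ x
  exact AlgEquiv.restrictNormal_commutes σ G x

end

open scoped Classical in
/-- **The data of a form.** -/
theorem exists_form (hE : EllK) {μ : 𝓞 K} (N F F₀ G₀ : Type) [Field N]
    [NumberField N] [Algebra K N] [Field F] [NumberField F] [Algebra K F] [Field F₀]
    [NumberField F₀] [Algebra K F₀] [Field G₀] [NumberField G₀] [Algebra K G₀] [Algebra N F]
    [Algebra F₀ F] [Algebra F₀ G₀] [IsScalarTower K N F] [IsScalarTower K F₀ F]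
    [IsScalarTower K F₀ G₀] [IsGalois K G₀] [DecidableEq G₀] {T : Pt G₀} (hT : AbT μ K T)
    (hgen : IntermediateField.adjoin N (Set.range (algebraMap F₀ F)) = ⊤)
    {a₀ b₀ : F₀} {u₀ : G₀} {θ₀ : Gal(G₀/F₀) →* (𝓞 K)ˣ} (hs₀ : ScD a₀ b₀ u₀ θ₀) {g : 𝓞 K}
    (hg0 : g ≠ 0) (hg : gB μ ∣ g) {a b : N} {c : F} (hc : c ≠ 0)
    (ha : algebraMap N F a = c ^ 4 * algebraMap F₀ F a₀)
    (hb : algebraMap N F b = c ^ 6 * algebraMap F₀ F b₀) {W : WeierstrassCurve N}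
    {D : VariableChange N} (hD : D • W = cv a b) :
    ∃ (G : Type) (_ : Field G) (_ : NumberField G) (_ : Algebra K G)
      (_ : Algebra N G) (_ : IsScalarTower K N G) (_ : IsGalois N G) (T' : Pt G) (u : G)
      (θ : Gal(G/N) →* (𝓞 K)ˣ), AbT μ N T' ∧ ScD a b u θ ∧
        ChW W (Ideal.span {up g N}) (cT N T' (Ideal.span {up g N}) (thC θ)) ∧ AbW W μ ∧
        (∀ ℓ : ℕ, ℓ.Prime → ¬ (ℓ : ℤ) ∣ CD.bad → ¬ ℓ ∣ nAb μ →
          ∀ v : HeightOneSpectrum (𝓞 N), (ℓ : 𝓞 N) ∈ v.asIdeal → Gd W v) ∧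
        ∀ ℓ : ℕ, ℓ.Prime → ¬ (ℓ : ℤ) ∣ CD.bad → VAL.{0} ℓ → IsCoprime g (ℓ : 𝓞 K) →
          WOk ℓ F → UnitZY ℓ F (fun I => psT F₀ T g θ₀ (Ideal.relNorm (𝓞 F₀) I)) →
          UnitZY ℓ N (psT N T' g θ) := by
  obtain ⟨G, iG, nG, aKG, aNG, aFG, aG₀G, aF₀G, t1, t2, t3, t4, t5, t6, t7, hGal, hgenG, hG⟩ :=
    exists_compT N F F₀ G₀ hgen
  have hGF₀ : IsGalois F₀ G₀ := IsGalois.tower_top_of_isGalois K F₀ G₀
  obtain ⟨u, θ, hs, hθ⟩ := exists_sc (G := G) hs₀ hc ha hb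
  have hT' : AbT μ N (DX.up G T) := hT.up (N := N) hG
  obtain ⟨D₀, hD₀⟩ := sc_curve hs hD
  have hGF : IsGalois F G := IsGalois.tower_top_of_isGalois N F G
  have hTF : AbT μ F (DX.up G T) := hT'.mid
  have hT₀ : AbT μ F₀ T := hT.mid
  have hch := chW_sc (F := G) hE hT' hg0 hg hs hD hD₀
  rw [rs_self N G, MonoidHom.comp_id] at hch
  have hW := TH.abW_of N G G₀ G₀ hT hgenG hD₀
  refine ⟨G, iG, nG, aKG, aNG, t1, hGal, DX.up G T, u, θ, hT', hs, hch, hW,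
    fun ℓ hℓ hbad hμ v hv => Pool.Agent.Lib.MP_1a91b9_nuW.TH.gd_ell_K hℓ hbad hμ N G G₀ G₀ hT
      hgenG hD₀ v hv, fun ℓ hℓ hbad hV hgℓ h3 hU => ?_⟩
  refine unitZY_down (F := F) hT' hg0 hg θ hℓ hbad hV hgℓ h3 ?_
  rw [psT_comp hT₀ hTF hg0 hg θ₀ (θ.comp (toFH N F G)) hθ]
  exact hU

end Pool.Agent.Lib.MP_1a91b9_nuY.TF
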