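import Pool.Agent.Lib.MP_1a91b9_nuX.TH.Lg
import Pool.Agent.Lib.MP_1a91b9_nuX.QW.GluK
import Pool.Agent.Lib.MP_1a91b9_nuY.TF.Frm
import Pool.Agent.Lib.MP_1a91b9_nuY.TX.Cnt
import Pool.Agent.Lib.MP_1a91b9_nuY.TX.One

/-!
# Twisted base: the nonvanishing over `F₀ = N₀ K` from the nonvanishing over `N₀`
-/

set_option autoImplicit false

namespace Pool.Agent.Lib.MP_1a91b9_nuY.TF

open NumberField IsDedekindDomain WeierstrassCurve Module IntermediateField
open Pool.Agent.Lib.MP_1a91b9_nuT hiding cj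
open Pool.Agent.Lib.MP_1a91b9_nuX Pool.Agent.Lib.MP_1a91b9_nuX.QW
open Pool.Agent.Lib.MP_1a91b9_nuX.DB Pool.Agent.Lib.MP_1a91b9_nuX.DX Pool.Agent.Lib.MP_1a91b9_nuX.GL
open Pool.Agent.Lib.MP_1a91b9_nuG (up)
open Pool.Agent.Lib.MP_1a91b9_nuX.PG
open Pool.Agent.Lib.MP_1a91b9_nuX.PH
open Pool.Agent.Lib.MP_1a91b9_nuX.TG Pool.Agent.Lib.MP_1a91b9_nuX.TC
open Pool.Agent.Lib.MP_1a91b9_nuX.AN
open Pool.Agent.Lib.MP_1a91b9_nuX.LG
open Pool.Agent.Lib.MP_1a91b9_nuX.TH (ChW eulR eulR_ne ser_T exists_B differentiable_eulR)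
open Pool.Agent.Lib.MP_1a91b9_nuT.S4 (Lf entire_eq differentiable_conj_conj)
open Pool.Agent.Lib.MP_1a91b9_nuT.Per (cv)

variable [CD] [HC]

section
variable {μ : 𝓞 K} {F G : Type} [Field F] [NumberField F] [Algebra K F] [Field G] [NumberField G]
  [Algebra K G] [Algebra F G] [IsScalarTower K F G] [DecidableEq G] [IsGalois F G] {T : Pt G}

/-- the data of the form over `F` -/
theorem lgb_dat (hE : EllK) (hT : AbT μ F T) {a b : F} {u : G} {θ : Gal(G/F) →* (𝓞 K)ˣ}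
    (hs : ScD a b u θ) {g : 𝓞 K} (hg0 : g ≠ 0) (hg : gB μ ∣ g) :
    (∃ m, FDat F (cv a b) m (psP (cv a b))) ∧
      ChW (cv a b) (Ideal.span {up g F}) (cT F T (Ideal.span {up g F}) (thC θ)) := by
  obtain ⟨D₀, hD₀⟩ := sc_curve hs (W := cv a b) (D := 1) (one_smul _ _)
  have hD' : D₀⁻¹ • E G = (cv a b).map (algebraMap F G) := by
    rw [← hD₀, inv_smul_smul]
  have hab : AbW (cv a b) μ := TX.abW_gal hT hD'
  refine ⟨fdatP hE hT.ne hab, ?_⟩
  have hch := chW_sc (F := G) hE hT hg0 hg hs (one_smul _ _) hD₀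
  rw [rs_self F G, MonoidHom.comp_id] at hch
  exact hch

/-- from the primitive to the imprimitive character -/
theorem lgb_core (hE : EllK) (hT : AbT μ F T) {a b : F} {u : G} {θ : Gal(G/F) →* (𝓞 K)ˣ}
    (hs : ScD a b u θ) {g : 𝓞 K} (hg0 : g ≠ 0) (hg : gB μ ∣ g)
    (h : GoodP (psP (cv a b))) : LGoodY F (psT F T g θ) := by
  rw [← lgoodT_iff]
  obtain ⟨⟨m, hm⟩, hc⟩ := lgb_dat hE hT hs hg0 hg
  obtain ⟨B, hB⟩ := exists_B hc.ne
  obtain ⟨L, hL, hL1, hL2⟩ := h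
  refine ⟨fun s => L s * eulR (cv a b) B s, hL.mul (differentiable_eulR B), fun s hs => ?_,
    mul_ne_zero hL2 (eulR_ne hm B)⟩
  change L s * eulR (cv a b) B s = _
  rw [hL1 s hs, ← ser_T hm hc hB s hs]

end

section
variable {F : Type} [Field F] [NumberField F] [Algebra K F]

/-- a field which contains `K` -/
theorem lgb_K {W : WeierstrassCurve F} {m : Ideal (𝓞 F)} (hm : FDat F W m (psP W)) {h : ℂ → ℂ}
    (hd : Differentiable ℂ h) (hl : ∀ s : ℂ, 3 / 2 < s.re → h s = W.LSeries s) (h1 : h 1 ≠ 0) :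
    GoodP (psP W) := by
  obtain ⟨L, hL, hL1⟩ := PA.fdat_cont hm
  refine ⟨L, hL, hL1, fun h0 => h1 ?_⟩
  have hgL : h = fun s => (starRingEnd ℂ) (L ((starRingEnd ℂ) s)) * L s := by
    refine entire_eq hd ((differentiable_conj_conj hL).mul hL) fun s hs => ?_
    rw [hl s (by linarith), LSeries_K' hm s (by linarith), hL1 s hs,
      hL1 _ (by rw [Complex.conj_re]; exact hs), Lf_pC]
  rw [hgL]
  change (starRingEnd ℂ) (L ((starRingEnd ℂ) 1)) * L 1 = 0
  rw [h0, mul_zero]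

/-- a field which does not contain `K` -/
theorem lgb_N (hE : EllK) {N : Type} [Field N] [NumberField N] [Algebra N F]
    (h2 : finrank N F = 2) (hn : ∀ x : N, algebraMap N F x ≠ algebraMap K F om)
    {W : WeierstrassCurve N} {m : Ideal (𝓞 F)}
    (hm : FDat F (W.map (algebraMap N F)) m (psP (W.map (algebraMap N F))))
    (hfm : Fm (W.map (algebraMap N F))) {h : ℂ → ℂ}
    (hd : Differentiable ℂ h) (hl : ∀ s : ℂ, 3 / 2 < s.re → h s = W.LSeries s) (h1 : h 1 ≠ 0) :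
    GoodP (psP (W.map (algebraMap N F))) := by
  have he := eulD_P hE h2 hn hfm
  refine ⟨h, hd, fun s hs => ?_, h1⟩
  rw [hl s (by linarith), LSeries_N' hm he s (by linarith)]

end

/-- **The nonvanishing over `F₀ = N₀ K` of the twist.** -/
theorem lgoodY_base (hE : EllK) {μ : 𝓞 K} {N₀ F₀ G₀ : Type} [Field N₀] [NumberField N₀]
    [Field F₀] [NumberField F₀] [Field G₀] [NumberField G₀] [Algebra N₀ F₀] [Algebra K F₀]
    [Algebra K G₀] [Algebra F₀ G₀] [IsScalarTower K F₀ G₀] [IsGalois F₀ G₀] [DecidableEq G₀]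
    {T : Pt G₀} (hT : AbT μ F₀ T)
    (hN : IntermediateField.adjoin N₀ (Set.range (algebraMap K F₀)) = ⊤) {a b : N₀} {u : G₀}
    {θ : Gal(G₀/F₀) →* (𝓞 K)ˣ} (hs : ScD (algebraMap N₀ F₀ a) (algebraMap N₀ F₀ b) u θ) {g : 𝓞 K}
    (hg0 : g ≠ 0) (hg : gB μ ∣ g) {h : ℂ → ℂ} (hd : Differentiable ℂ h)
    (hl : ∀ s : ℂ, 3 / 2 < s.re → h s = (cv a b : WeierstrassCurve N₀).LSeries s)
    (h1 : h 1 ≠ 0) : LGoodY F₀ (psT F₀ T g θ) := by
  have hgen : IntermediateField.adjoin N₀ {algebraMap K F₀ om} = ⊤ := by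
    rw [eq_top_iff, ← hN, IntermediateField.adjoin_le_iff]
    rintro _ ⟨z, rfl⟩
    obtain ⟨a, b, rfl⟩ := exists_rat_coords z
    rw [map_add, map_mul, map_ratCast, map_ratCast]
    have h2 : ∀ q : ℚ, (q : F₀) ∈ IntermediateField.adjoin N₀ {algebraMap K F₀ om} := fun q => by
      have h3 := (IntermediateField.adjoin N₀ {algebraMap K F₀ om}).algebraMap_mem (q : N₀)
      rwa [map_ratCast] at h3
    exact add_mem (h2 a) (mul_mem (h2 b) (mem_adjoin_simple_self N₀ _))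
  rcases exists_sub F₀ N₀ with ⟨aKN, hst⟩ | ⟨F, _, _, _, _, _, t1, t2, h2, hn⟩
  · have hb : Function.Bijective (algebraMap N₀ F₀) := by
      refine ⟨(algebraMap N₀ F₀).injective, fun y => ?_⟩
      have h5 : y ∈ (⊥ : IntermediateField N₀ F₀) := by
        have h6 : IntermediateField.adjoin N₀ {algebraMap K F₀ om} ≤ ⊥ := by
          rw [adjoin_simple_le_iff, IntermediateField.mem_bot]
          exact ⟨algebraMap K N₀ om, (IsScalarTower.algebraMap_apply K N₀ F₀ om).symm⟩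
        rw [hgen] at h6
        exact h6 mem_top
      exact IntermediateField.mem_bot.1 h5
    let aNG : Algebra N₀ G₀ := ((algebraMap F₀ G₀).comp (algebraMap N₀ F₀)).toAlgebra
    have t1 : IsScalarTower N₀ F₀ G₀ := IsScalarTower.of_algebraMap_eq fun x => rfl
    have t2 : IsScalarTower K N₀ G₀ := IsScalarTower.of_algebraMap_eq fun x => by
      rw [IsScalarTower.algebraMap_apply K F₀ G₀, IsScalarTower.algebraMap_apply K N₀ F₀]
      rfl
    have hGal : IsGalois N₀ G₀ := by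
      let e : F₀ ≃+* N₀ := (RingEquiv.ofBijective (algebraMap N₀ F₀) hb).symm
      refine IsGalois.of_equiv_equiv (F := F₀) (E := G₀) (M := N₀) (N := G₀) (f := e)
        (g := RingEquiv.refl G₀) ?_
      refine RingHom.ext fun x => ?_
      change algebraMap F₀ G₀ (algebraMap N₀ F₀ (e x)) = algebraMap F₀ G₀ x
      congr 1
      exact (RingEquiv.ofBijective (algebraMap N₀ F₀) hb).apply_symm_apply x
    have hex : ∀ σ : Gal(G₀/N₀), ∃ σ' : Gal(G₀/F₀), toF N₀ σ' = σ := by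
      intro σ
      refine ⟨AlgEquiv.ofRingEquiv (f := σ.toRingEquiv) fun x => ?_, AlgEquiv.ext fun x => rfl⟩
      obtain ⟨y, rfl⟩ := hb.2 x
      exact σ.commutes y
    have hT' : AbT μ N₀ T := by
      refine ⟨hT.ne, hT.ord, fun σ hσ => ?_⟩
      obtain ⟨σ', rfl⟩ := hex σ
      rw [ga_toF] at hσ
      rw [hT.gen σ' hσ]
      rfl
    have ha : algebraMap N₀ G₀ a = (CD.A : G₀) * u ^ 4 := hs.ha
    have hb' : algebraMap N₀ G₀ b = (CD.B : G₀) * u ^ 6 := hs.hb
    obtain ⟨θ', hs'⟩ := exists_theta hs.ne ha hb'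
    obtain ⟨⟨m, hm⟩, -⟩ := lgb_dat hE hT' hs' hg0 hg
    have hgood := lgb_core hE hT' hs' hg0 hg (lgb_K hm hd hl h1)
    obtain ⟨L, hL, hL1, hL2⟩ := hgood
    have hHF : HF g N₀ (psT N₀ T g θ') := hf_psT (θ := θ') hT' hg0 hg
    have hG1 : IsGalois N₀ F₀ := TX.bij_galois hb
    refine ⟨L, hL, fun s hs2 => ?_, hL2⟩
    have hup : DX.up G₀ T = T := by
      rcases cases_pt T with h0 | ⟨x, y, hxy, h0⟩
      · rw [h0, up_zero]
      · rw [h0]
        obtain ⟨h3, e3⟩ := pm_mk (IsScalarTower.toAlgHom K G₀ G₀) x y hxy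
        rw [DX.up, e3, mk_inj]
        exact ⟨rfl, rfl⟩
    have hcomp := psT_comp (F := F₀) (G := G₀) hT' (by rw [hup]; exact hT) hg0 hg θ' θ
      (fun σ => by
        apply Units.ext
        apply RingOfIntegers.ext
        apply (algebraMap K G₀).injective
        apply mul_right_cancel₀ hs.ne
        have h3 := hs.th σ
        have h4 := hs'.th (rs G₀ (toF N₀ σ))
        have h5 : rs G₀ (toF N₀ σ) u = σ u := rs_apply (toF N₀ σ) u
        rw [h5] at h4
        exact h3.symm.trans h4)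
    rw [hup] at hcomp
    rw [hcomp, hL1 s hs2]
    exact (TX.one_LfY (F' := F₀) hHF (TX.bij_finrank hb) s hs2).symm
  · have hb : Function.Bijective (algebraMap F F₀) := by
      refine ⟨(algebraMap F F₀).injective, fun y => ?_⟩
      have h6 : IntermediateField.adjoin N₀ {algebraMap K F₀ om} ≤
          (IsScalarTower.toAlgHom N₀ F F₀).fieldRange := by
        rw [adjoin_simple_le_iff]
        exact ⟨algebraMap K F om, (IsScalarTower.algebraMap_apply K F F₀ om).symm⟩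
      rw [hgen] at h6
      obtain ⟨z, hz⟩ := h6 (mem_top (x := y))
      exact ⟨z, hz⟩
    have h2' : finrank N₀ F₀ = 2 := by
      rw [← h2]
      exact (LinearEquiv.ofBijective (IsScalarTower.toAlgHom N₀ F F₀).toLinearMap hb).finrank_eq.symm
    have hn' : ∀ x : N₀, algebraMap N₀ F₀ x ≠ algebraMap K F₀ om := by
      intro x hx
      apply hn x
      apply (algebraMap F F₀).injective
      rw [← IsScalarTower.algebraMap_apply N₀ F F₀, ← IsScalarTower.algebraMap_apply K F F₀]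
      exact hx
    obtain ⟨⟨m, hm⟩, -⟩ := lgb_dat hE hT hs hg0 hg
    have ecv : cv (algebraMap N₀ F₀ a) (algebraMap N₀ F₀ b) = (cv a b).map (algebraMap N₀ F₀) :=
      (LF.crv_map _ a b).symm
    obtain ⟨D₀, hD₀⟩ := sc_curve hs (W := cv _ _) (D := 1) (one_smul _ _)
    have hD' : D₀⁻¹ • E G₀ = (cv (algebraMap N₀ F₀ a) (algebraMap N₀ F₀ b)).map
        (algebraMap F₀ G₀) := by
      rw [← hD₀, inv_smul_smul]
    have hfm : Fm (cv (algebraMap N₀ F₀ a) (algebraMap N₀ F₀ b)) := by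
      obtain ⟨ι, D, hD, -⟩ := TX.abW_gal hT hD'
      exact ⟨ι, D, hD⟩
    refine lgb_core hE hT hs hg0 hg ?_
    rw [ecv] at hm hfm ⊢
    exact lgb_N hE h2' hn' hm hfm hd hl h1

end Pool.Agent.Lib.MP_1a91b9_nuY.TF
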