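import Pool.Agent.Lib.MP_1a91b9_nuY.TX.Cnt

/-!
# Twisted base: the ramification condition over the base field

`ramF_of`: the condition on the numbers of points of the reductions of `y² = x³ + α x + β` at the ramified places implies
the condition `RamF` on the Hecke character, when the places above `c` are not anomalous. `exists_c`: a common multiple
from `K`.
-/

set_option autoImplicit false

namespace Pool.Agent.Lib.MP_1a91b9_nuY.TF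

open NumberField IsDedekindDomain WeierstrassCurve Module
open Pool.Agent.Lib.MP_1a91b9_nuT hiding cj
open Pool.Agent.Lib.MP_1a91b9_nuX
open Pool.Agent.Lib.MP_1a91b9_nuX.DB Pool.Agent.Lib.MP_1a91b9_nuX.DX Pool.Agent.Lib.MP_1a91b9_nuX.GL
open Pool.Agent.Lib.MP_1a91b9_nuG (up Ram)
open Pool.Agent.Lib.MP_1a91b9_nuX.TG Pool.Agent.Lib.MP_1a91b9_nuX.TC
open Pool.Agent.Lib.MP_1a91b9_nuX.QW (ScD)
open Pool.Agent.Lib.MP_1a91b9_nuW.DY (Splt)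
open Pool.Agent.Lib.MP_1a91b9_nuY.TX (RamF cnt_psT)

universe u

variable [CD]

section
variable {F₀ : Type u} [Field F₀] [NumberField F₀] [Algebra K F₀]

/-- **A common multiple from `K`.** -/
theorem exists_c {g : 𝓞 K} (hg : g ≠ 0) {x : 𝓞 F₀} (hx : x ≠ 0) :
    ∃ c : 𝓞 K, c ≠ 0 ∧ g ∣ c ∧ x ∣ up c F₀ := by
  have h1 : Ideal.absNorm (Ideal.span {x}) ≠ 0 := by
    rw [Ne, Ideal.absNorm_eq_zero_iff, Ideal.span_singleton_eq_bot]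
    exact hx
  have h2 : x ∣ ((Ideal.absNorm (Ideal.span {x}) : ℕ) : 𝓞 F₀) :=
    Ideal.mem_span_singleton.1 (Ideal.absNorm_mem _)
  refine ⟨g * ((Ideal.absNorm (Ideal.span {x}) : ℕ) : 𝓞 K), mul_ne_zero hg (Nat.cast_ne_zero.2 h1),
    dvd_mul_right _ _, ?_⟩
  have h3 : up (g * ((Ideal.absNorm (Ideal.span {x}) : ℕ) : 𝓞 K)) F₀ =
      up g F₀ * ((Ideal.absNorm (Ideal.span {x}) : ℕ) : 𝓞 F₀) :=
    (map_mul (algebraMap (𝓞 K) (𝓞 F₀)) _ _).trans (congrArg _ (map_natCast _ _))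
  rw [h3]
  exact h2.mul_left _

end

variable [HC]

/-- **The ramification condition over the base field.** -/
theorem ramF_of (hE : EllK) {μ g : 𝓞 K} {F₀ G₀ : Type u} [Field F₀] [NumberField F₀]
    [Algebra K F₀] [Field G₀] [NumberField G₀] [Algebra K G₀] [Algebra F₀ G₀]
    [IsScalarTower K F₀ G₀] [DecidableEq G₀] [IsGalois F₀ G₀] {T : Pt G₀} (hT : AbT μ F₀ T)
    (hg : gB μ ∣ g) {α β : 𝓞 F₀} {u : G₀} {θ : Gal(G₀/F₀) →* (𝓞 K)ˣ}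
    (hs : ScD (α : F₀) (β : F₀) u θ) {c : 𝓞 K} (hc1 : g ∣ c)
    (hc2 : 6 * 16 * (4 * α ^ 3 + 27 * β ^ 2) ∣ up c F₀) {ℓ : ℕ} (hℓ : ℓ.Prime)
    (hna : ∀ v : HeightOneSpectrum (𝓞 F₀), up c F₀ ∈ v.asIdeal →
      IsCoprime (psT F₀ T g θ v.asIdeal - 1) (ℓ : 𝓞 K))
    {L : Type*} [Field L] [NumberField L] [Algebra F₀ L]
    (h : ∀ (v : HeightOneSpectrum (𝓞 F₀)) (w : HeightOneSpectrum (𝓞 L)),
      v.asIdeal.map (algebraMap (𝓞 F₀) (𝓞 L)) ≤ w.asIdeal ^ 2 →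
        ((ℓ : 𝓞 F₀) ∈ v.asIdeal → Splt ℓ) ∧
        (6 * (4 * α ^ 3 + 27 * β ^ 2) ∉ v.asIdeal →
          ¬ ℓ ∣ Nat.card (⟨0, 0, 0, Ideal.Quotient.mk v.asIdeal α,
            Ideal.Quotient.mk v.asIdeal β⟩ : WeierstrassCurve (𝓞 F₀ ⧸ v.asIdeal)).toAffine.Point)) :
    RamF ℓ F₀ L (psT F₀ T g θ) := by
  rintro v ⟨w, hw⟩
  obtain ⟨h1, h2⟩ := h v w hw
  refine ⟨h1, ?_⟩
  by_cases hv : up c F₀ ∈ v.asIdeal
  · exact hna v hv
  · have a1 : up g F₀ ∉ v.asIdeal := fun h3 =>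
      hv (v.asIdeal.mem_of_dvd (map_dvd (algebraMap (𝓞 K) (𝓞 F₀)) hc1) h3)
    have a2 : 16 * (4 * α ^ 3 + 27 * β ^ 2) ∉ v.asIdeal := fun h3 =>
      hv (v.asIdeal.mem_of_dvd ((Dvd.intro_left (6 : 𝓞 F₀) (by ring)).trans hc2) h3)
    have a3 : 6 * (4 * α ^ 3 + 27 * β ^ 2) ∉ v.asIdeal := fun h3 =>
      hv (v.asIdeal.mem_of_dvd ((Dvd.intro_left (16 : 𝓞 F₀) (by ring)).trans hc2) h3)
    exact cnt_psT hE hT hg hs hℓ v a1 a2 (h2 a3)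

end Pool.Agent.Lib.MP_1a91b9_nuY.TF
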