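import Pool.Agent.Lib.MP_1a91b9_nuX.TH.Main
import Pool.Agent.Lib.MP_1a91b9_nuW.TH.Val
import Pool.Agent.Lib.MP_1a91b9_nuY.TF.Gy
import Pool.Agent.Lib.MP_1a91b9_nuY.TF.Bas
import Pool.Agent.Lib.MP_1a91b9_nuY.TF.Ram
import Pool.Agent.Lib.MP_1a91b9_nuY.TF.Lgb

/-!
# Towers over the fields generated by a torsion point, for the forms of the curve over the base field

`TowT`: the conclusion for all the towers over `F₀` and all the curves `W` over the fields `N ⊆ L` which become isomorphic over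
`L` to the curve `y² = x³ + α x + β` with coefficients in `F₀`.
-/

set_option autoImplicit false

namespace Pool.Agent.Lib.MP_1a91b9_nuY.TF

open NumberField IsDedekindDomain WeierstrassCurve Module
open Pool.Agent.Lib.MP_1a91b9_nuT hiding cj
open Pool.Agent.Lib.MP_1a91b9_nt
open Pool.Agent.Lib.MP_1a91b9_nuX Pool.Agent.Lib.MP_1a91b9_nuX.QW
open Pool.Agent.Lib.MP_1a91b9_nuW.ZD (VAL WOk)
open Pool.Agent.Lib.MP_1a91b9_nuW.TH (val_all)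
open Pool.Agent.Lib.MP_1a91b9_nuW.DY (Splt)
open Pool.Agent.Lib.MP_1a91b9_nuX.DB Pool.Agent.Lib.MP_1a91b9_nuX.GL
open Pool.Agent.Lib.MP_1a91b9_nuX.PH (Fm)
open Pool.Agent.Lib.MP_1a91b9_nuX.TG
open Pool.Agent.Lib.MP_1a91b9_nuX.TH (NaW naW_almost)
open Pool.Agent.Lib.MP_1a91b9_nuT.PL (Concl)
open Pool.Agent.Lib.MP_1a91b9_nuT.Per (cv)
open Pool.Agent.Lib.MP_1a91b9_nuT3.S9 (ShaP)
open Pool.Agent.Lib.MP_1a91b9_nuY.TX (TowF RamF BaseY)

variable [CD]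

/-- The ramification condition for the curve `y² = x³ + α x + β` over `F₀`, outside of the places above `6` and of the places
where the discriminant of the equation vanishes. The places above `ℓ` may ramify if `ℓ` splits in the field of complex
multiplication. -/
def RamT (ℓ : ℕ) {F₀ : Type} [Field F₀] [NumberField F₀] (α β : 𝓞 F₀) (L : Type) [Field L]
    [NumberField L] [Algebra F₀ L] : Prop :=
  ∀ (v : HeightOneSpectrum (𝓞 F₀)) (w : HeightOneSpectrum (𝓞 L)),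
    v.asIdeal.map (algebraMap (𝓞 F₀) (𝓞 L)) ≤ w.asIdeal ^ 2 →
      ((ℓ : 𝓞 F₀) ∈ v.asIdeal → Splt ℓ) ∧ (6 * (4 * α ^ 3 + 27 * β ^ 2) ∉ v.asIdeal →
        ¬ ℓ ∣ Nat.card (⟨0, 0, 0, Ideal.Quotient.mk v.asIdeal α,
          Ideal.Quotient.mk v.asIdeal β⟩ : WeierstrassCurve (𝓞 F₀ ⧸ v.asIdeal)).toAffine.Point)

/-- The conclusion for all the fields of the tower. -/
def TowT (ℓ : ℕ) {F₀ : Type} [Field F₀] [NumberField F₀] (α β : 𝓞 F₀) : Prop :=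
  ∀ (n : ℕ) (N L M : Type) [Field N] [NumberField N] [Field L] [NumberField L] [Field M]
    [NumberField M] [Algebra N L] [Algebra F₀ L] [Algebra L M] [Algebra F₀ M]
    [IsScalarTower F₀ L M] [IsGalois F₀ M], finrank F₀ M = ℓ ^ n → RamT ℓ α β L →
    ∀ (W : WeierstrassCurve N) (C : VariableChange L),
      C • W.baseChange L = ⟨0, 0, 0, algebraMap F₀ L α, algebraMap F₀ L β⟩ →
      ConclR W ∧ ∀ _ : Fact ℓ.Prime, MP_1a91b9_nuT.PL.Concl ℓ W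

omit [CD] in
/-- the scaling -/
theorem scale_iso {L : Type*} [Field L] [CharZero L] {a b A B : L} {C : VariableChange L}
    (hC : C • (⟨0, 0, 0, a, b⟩ : WeierstrassCurve L) = ⟨0, 0, 0, A, B⟩) :
    a = A * (C.u : L) ^ 4 ∧ b = B * (C.u : L) ^ 6 := by
  have hu : (C.u : L) ≠ 0 := C.u.ne_zero
  have h4 := congrArg WeierstrassCurve.c₄ hC
  have h6 := congrArg WeierstrassCurve.c₆ hC
  have e4 : ∀ x y : L, (⟨0, 0, 0, x, y⟩ : WeierstrassCurve L).c₄ = -(48 * x) := LF.crv_c₄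
  have e6 : ∀ x y : L, (⟨0, 0, 0, x, y⟩ : WeierstrassCurve L).c₆ = -(864 * y) := LF.crv_c₆
  rw [variableChange_c₄, e4, e4, Units.val_inv_eq_inv_val] at h4
  rw [variableChange_c₆, e6, e6, Units.val_inv_eq_inv_val] at h6
  field_simp at h4 h6
  exact ⟨by linear_combination -h4, by linear_combination -h6⟩

variable [HC] {N₀ F₀ L₀ : Type} [Field N₀] [NumberField N₀] [Field F₀] [NumberField F₀]
  [Algebra K F₀] [Algebra N₀ F₀] [Field L₀] [NumberField L₀] [Algebra K L₀] [Algebra F₀ L₀]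
  [IsScalarTower K F₀ L₀] [DecidableEq L₀]

/-- The theorem over the concrete field `K` for the curve of `CD`. -/
theorem thmT_E (hE : EllK) (hN : IntermediateField.adjoin N₀ (Set.range (algebraMap K F₀)) = ⊤)
    {T₀ : Pt L₀} {n₀ : ℕ} (hn₀ : n₀ ≠ 0) (hT₀ : n₀ • T₀ = 0)
    (hgen : IntermediateField.adjoin K {xc T₀, yc T₀} = ⊤) {α β : 𝓞 N₀}
    (h0 : 4 * α ^ 3 + 27 * β ^ 2 ≠ 0) {u : L₀} (hu : u ≠ 0)
    (ha : algebraMap F₀ L₀ (algebraMap N₀ F₀ (α : N₀)) = (CD.A : L₀) * u ^ 4)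
    (hb : algebraMap F₀ L₀ (algebraMap N₀ F₀ (β : N₀)) = (CD.B : L₀) * u ^ 6)
    (hg : ∃ g : ℂ → ℂ, Differentiable ℂ g ∧ (∀ s : ℂ, 3 / 2 < s.re →
      g s = (⟨0, 0, 0, (α : N₀), (β : N₀)⟩ : WeierstrassCurve N₀).LSeries s) ∧ g 1 ≠ 0) :
    ∃ S : Finset ℕ, ∀ ℓ : ℕ, ℓ.Prime → ℓ ∉ S →
      TowT ℓ (algebraMap (𝓞 N₀) (𝓞 F₀) α) (algebraMap (𝓞 N₀) (𝓞 F₀) β) := by
  classical
  obtain ⟨α', hα'⟩ : ∃ α', α' = algebraMap (𝓞 N₀) (𝓞 F₀) α := ⟨_, rfl⟩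
  obtain ⟨β', hβ'⟩ : ∃ β', β' = algebraMap (𝓞 N₀) (𝓞 F₀) β := ⟨_, rfl⟩
  have eα : algebraMap N₀ F₀ (α : N₀) = (α' : F₀) := by rw [hα']; rfl
  have eβ : algebraMap N₀ F₀ (β : N₀) = (β' : F₀) := by rw [hβ']; rfl
  have h0' : 4 * α' ^ 3 + 27 * β' ^ 2 ≠ 0 := by
    intro h
    apply h0
    apply FaithfulSMul.algebraMap_injective (𝓞 N₀) (𝓞 F₀)
    rw [map_zero, ← h, hα', hβ', map_add, map_mul, map_mul, map_pow, map_pow, map_ofNat,
      map_ofNat]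
  rw [← hα', ← hβ']
  obtain ⟨μ, g, G, _, _, _, _, t1, _, hGK, hGF, J, u', θ, hJ, hs, hg0, hgB, hBY⟩ :=
    exists_baseY hn₀ hT₀ hgen hu ha hb
  obtain ⟨h, hd, hl, h1⟩ := hg
  have hJ₀ : AbT μ F₀ J := hJ.mid
  have hL := lgoodY_base hE hJ₀ hN hs (g := (g : 𝓞 K)) (Nat.cast_ne_zero.2 hg0) hgB hd hl h1
  obtain ⟨B, hB⟩ := hBY hL
  rw [eα, eβ] at hs
  have hG0 : ((g : ℕ) : 𝓞 K) ≠ 0 := Nat.cast_ne_zero.2 hg0
  have hΨ := hf_psT (θ := θ) hJ₀ hG0 hgB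
  obtain ⟨c, hc0, hc1, hc2⟩ := exists_c (F₀ := F₀) hG0
    (x := 6 * 16 * (4 * α' ^ 3 + 27 * β' ^ 2)) (mul_ne_zero (by norm_num) h0')
  obtain ⟨n1, hn1, H1⟩ := TX.nac_psT hc0 hΨ
  have hFm : Fm (cv (α' : F₀) (β' : F₀)) := by
    have h2 := fm_sc (F := F₀) hs
    have e : (cv (α' : F₀) (β' : F₀)).map (algebraMap F₀ F₀) = cv (α' : F₀) (β' : F₀) :=
      WeierstrassCurve.map_id _
    rwa [e] at h2
  obtain ⟨n2, hn2, H2⟩ := naW_almost hE hG0 hFm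
  have hμ0 := nAb_ne hJ.ne
  have hD0 : CD.bad.natAbs ≠ 0 := Int.natAbs_ne_zero.2 CD.bad_ne
  refine ⟨Finset.range (B + 1) ∪ (n1 * n2 * (nAb μ * g) * CD.bad.natAbs).primeFactors,
    fun ℓ hℓ hS => ?_⟩
  rw [Finset.mem_union, not_or, Finset.mem_range, not_lt] at hS
  obtain ⟨hBl, hdv⟩ := hS
  have hprod : n1 * n2 * (nAb μ * g) * CD.bad.natAbs ≠ 0 :=
    mul_ne_zero (mul_ne_zero (mul_ne_zero hn1 hn2) (mul_ne_zero hμ0 hg0)) hD0
  have hdv' : ¬ ℓ ∣ n1 * n2 * (nAb μ * g) * CD.bad.natAbs := fun h =>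
    hdv (Nat.mem_primeFactors.2 ⟨hℓ, h, hprod⟩)
  have d1 : ¬ ℓ ∣ n1 := fun h => hdv' (((h.mul_right _).mul_right _).mul_right _)
  have d2 : ¬ ℓ ∣ n2 := fun h => hdv' (((h.mul_left _).mul_right _).mul_right _)
  have d3 : ¬ ℓ ∣ nAb μ := fun h => hdv' (((h.mul_right _).mul_left _).mul_right _)
  have d4 : ¬ ℓ ∣ g := fun h => hdv' (((h.mul_left _).mul_left _).mul_right _)
  have d5 : ¬ (ℓ : ℤ) ∣ CD.bad := fun h => hdv' ((Int.natCast_dvd.1 h).mul_left _)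
  have hF : Fact ℓ.Prime := ⟨hℓ⟩
  have hBa := hB ℓ hℓ (by omega)
  have hbase : BaseT μ g ℓ J (α' : F₀) (β' : F₀) u' θ :=
    { gal := hGK
      tor := hJ
      sc := hs
      nz := by
        rintro ⟨h3, h4⟩
        apply h0'
        have h5 : α' = 0 := RingOfIntegers.ext h3
        have h6 : β' = 0 := RingOfIntegers.ext h4
        rw [h5, h6]
        simp
      gne := hg0
      gB := hgB
      gl := ((Nat.Prime.coprime_iff_not_dvd hℓ).2 d4).symm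
      mu := d3
      bad := d5
      val := val_all.{0} ℓ
      naw := H2 ℓ hℓ d2
      gy := fun F _ _ _ _ _ h => gy_of hs hBa h }
  intro n N L M _ _ _ _ _ _ _ _ _ _ _ _ hM hR W C hC
  let aKL : Algebra K L := ((algebraMap F₀ L).comp (algebraMap K F₀)).toAlgebra
  let aKM : Algebra K M := ((algebraMap F₀ M).comp (algebraMap K F₀)).toAlgebra
  have t1 : IsScalarTower K F₀ L := IsScalarTower.of_algebraMap_eq fun x => rfl
  have t2 : IsScalarTower K F₀ M := IsScalarTower.of_algebraMap_eq fun x => rfl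
  have hRF := ramF_of hE hJ₀ hgB hs hc1 hc2 hℓ (H1 ℓ hℓ d1) (L := L) hR
  obtain ⟨r1, r2⟩ := concl_subT hE hbase L M n hM hRF N W C hC
  exact ⟨r1, fun _ => r2⟩

/-- The theorem over the concrete field `K`. -/
theorem thmT_K (hE : EllK) {A₀ B₀ k : ℤ} (hk : k ≠ 0) (hA : CD.A = k ^ 4 * A₀)
    (hB : CD.B = k ^ 6 * B₀)
    (hN : IntermediateField.adjoin N₀ (Set.range (algebraMap K F₀)) = ⊤) (x y : L₀)
    (hxy : (⟨0, 0, 0, ((A₀ : ℤ) : L₀), ((B₀ : ℤ) : L₀)⟩ :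
      WeierstrassCurve L₀).toAffine.Nonsingular x y)
    (ht : IsOfFinAddOrder (Affine.Point.some x y hxy))
    (hL₀ : IntermediateField.adjoin K {x, y} = ⊤) {α β : 𝓞 N₀}
    (h0 : 4 * α ^ 3 + 27 * β ^ 2 ≠ 0) {C₀ : VariableChange L₀}
    (hC₀ : C₀ • (⟨0, 0, 0, algebraMap F₀ L₀ (algebraMap N₀ F₀ α),
      algebraMap F₀ L₀ (algebraMap N₀ F₀ β)⟩ : WeierstrassCurve L₀) =
        ⟨0, 0, 0, ((A₀ : ℤ) : L₀), ((B₀ : ℤ) : L₀)⟩)
    (hg : ∃ g : ℂ → ℂ, Differentiable ℂ g ∧ (∀ s : ℂ, 3 / 2 < s.re →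
      g s = (⟨0, 0, 0, (α : N₀), (β : N₀)⟩ : WeierstrassCurve N₀).LSeries s) ∧ g 1 ≠ 0) :
    ∃ S : Finset ℕ, ∀ ℓ : ℕ, ℓ.Prime → ℓ ∉ S →
      TowT ℓ (algebraMap (𝓞 N₀) (𝓞 F₀) α) (algebraMap (𝓞 N₀) (𝓞 F₀) β) := by
  obtain ⟨T, n₀, hn₀, hT, hx, hy⟩ := scale_tors hk hA hB x y hxy ht
  have hgen := scale_gen hk hx hy hL₀
  obtain ⟨h1, h2⟩ := scale_iso hC₀
  have hkL : (k : L₀) ≠ 0 := Int.cast_ne_zero.2 hk
  refine thmT_E hE hN hn₀ hT hgen h0 (u := (C₀.u : L₀) / k)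
    (div_ne_zero C₀.u.ne_zero hkL) ?_ ?_ hg
  · rw [h1, hA, div_pow]
    push_cast
    field_simp
  · rw [h2, hB, div_pow]
    push_cast
    field_simp

/-- **Towers over the fields generated by a torsion point, for the forms of the curve over the base field.** -/
theorem thmT (hE : EllK) (K₀ N₀ F₀ L₀ : Type) [Field K₀] [NumberField K₀]
    (hK : finrank ℚ K₀ = 2)
    {w : K₀} (hw : w ^ 2 = (CD.tr : K₀) * w - (CD.nm : K₀)) [Field N₀] [NumberField N₀] [Field F₀]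
    [NumberField F₀] [Field L₀] [NumberField L₀] [DecidableEq L₀] [Algebra K₀ F₀] [Algebra N₀ F₀]
    [Algebra K₀ L₀] [Algebra F₀ L₀] [IsScalarTower K₀ F₀ L₀] {A₀ B₀ k : ℤ} (hk : k ≠ 0)
    (hA : CD.A = k ^ 4 * A₀) (hB : CD.B = k ^ 6 * B₀)
    (hN : IntermediateField.adjoin N₀ (Set.range (algebraMap K₀ F₀)) = ⊤) (x y : L₀)
    (hxy : (⟨0, 0, 0, ((A₀ : ℤ) : L₀), ((B₀ : ℤ) : L₀)⟩ :
      WeierstrassCurve L₀).toAffine.Nonsingular x y)
    (ht : IsOfFinAddOrder (Affine.Point.some x y hxy))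
    (hL₀ : IntermediateField.adjoin K₀ {x, y} = ⊤) {α β : 𝓞 N₀}
    (h0 : 4 * α ^ 3 + 27 * β ^ 2 ≠ 0) {C₀ : VariableChange L₀}
    (hC₀ : C₀ • (⟨0, 0, 0, algebraMap F₀ L₀ (algebraMap N₀ F₀ α),
      algebraMap F₀ L₀ (algebraMap N₀ F₀ β)⟩ : WeierstrassCurve L₀) =
        ⟨0, 0, 0, ((A₀ : ℤ) : L₀), ((B₀ : ℤ) : L₀)⟩)
    (hg : ∃ g : ℂ → ℂ, Differentiable ℂ g ∧ (∀ s : ℂ, 3 / 2 < s.re →
      g s = (⟨0, 0, 0, (α : N₀), (β : N₀)⟩ : WeierstrassCurve N₀).LSeries s) ∧ g 1 ≠ 0) :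
    ∃ S : Finset ℕ, ∀ ℓ : ℕ, ℓ.Prime → ℓ ∉ S →
      TowT ℓ (algebraMap (𝓞 N₀) (𝓞 F₀) α) (algebraMap (𝓞 N₀) (𝓞 F₀) β) := by
  obtain ⟨e, he⟩ := MP_1a91b9_nuT3.S8.exists_equiv hK hw
  let aF : Algebra K F₀ := ((algebraMap K₀ F₀).comp e.toRingHom).toAlgebra
  let aL : Algebra K L₀ := ((algebraMap K₀ L₀).comp e.toRingHom).toAlgebra
  have hFe : ∀ x : K, algebraMap K F₀ x = algebraMap K₀ F₀ (e x) := fun x => rfl
  have hLe : ∀ x : K, algebraMap K L₀ x = algebraMap K₀ L₀ (e x) := fun x => rfl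
  have hst : IsScalarTower K F₀ L₀ := IsScalarTower.of_algebraMap_eq fun x => by
    rw [hLe, hFe]
    exact IsScalarTower.algebraMap_apply K₀ F₀ L₀ (e x)
  have hrange : Set.range (algebraMap K F₀) = Set.range (algebraMap K₀ F₀) := by
    ext z
    constructor
    · rintro ⟨u, rfl⟩
      exact ⟨e u, rfl⟩
    · rintro ⟨u, rfl⟩
      exact ⟨e.symm u, by rw [hFe, RingEquiv.apply_symm_apply]⟩
  have hgen : IntermediateField.adjoin K {x, y} = (⊤ : IntermediateField K L₀) := by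
    obtain ⟨A, hA⟩ : ∃ A : IntermediateField K L₀, A = IntermediateField.adjoin K {x, y} :=
      ⟨_, rfl⟩
    let B : IntermediateField K₀ L₀ := A.toSubfield.toIntermediateField fun z => by
      change algebraMap K₀ L₀ z ∈ A
      have h4 := A.algebraMap_mem (e.symm z)
      rwa [hLe, RingEquiv.apply_symm_apply] at h4
    have hB : B = ⊤ := by
      rw [eq_top_iff, ← hL₀, IntermediateField.adjoin_le_iff]
      intro z hz
      change z ∈ A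
      rw [hA]
      exact IntermediateField.subset_adjoin K {x, y} hz
    rw [← hA, eq_top_iff]
    intro z _
    have h4 : z ∈ B := by
      rw [hB]
      exact IntermediateField.mem_top
    exact h4
  exact thmT_K hE hk hA hB (by rw [hrange]; exact hN) x y hxy ht hgen h0 hC₀ hg

end Pool.Agent.Lib.MP_1a91b9_nuY.TF
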