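import Pool.Agent.Lib.MP_1a91b9_nuX.TC.Cls

/-!
# Twisted base: descent of an isomorphism with a curve `y² = x³ + a x + b` in an extension of degree
prime to six
-/

set_option autoImplicit false

namespace Pool.Agent.Lib.MP_1a91b9_nuY.TF

open NumberField WeierstrassCurve Module
open Pool.Agent.Lib.MP_1a91b9_nuX.LF (crv exists_shortC exists_scale)
open Pool.Agent.Lib.MP_1a91b9_nuX.TC (pow_down)

/-- **Descent of an isomorphism.** -/
theorem cls_down {F M : Type*} [Field F] [CharZero F] [Field M] [CharZero M] [Algebra F M]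
    [FiniteDimensional F M] (h : (finrank F M).Coprime 6) {a₀ b₀ : F} (h0 : ¬ (a₀ = 0 ∧ b₀ = 0))
    (W : WeierstrassCurve F) (C : VariableChange M)
    (hC : C • (W.baseChange M) = crv (algebraMap F M a₀) (algebraMap F M b₀)) :
    ∃ D : VariableChange F, D • W = crv a₀ b₀ := by
  obtain ⟨a, b, u, D, hD, hu, ha, hb⟩ := exists_shortC W C hC
  have h2 : (finrank F M).Coprime 2 := h.coprime_dvd_right (by norm_num)
  have h4 : (finrank F M).Coprime 4 := by
    have := h2.pow_right 2
    exact this
  suffices hs : ∃ y : F, y ≠ 0 ∧ a = y ^ 4 * a₀ ∧ b = y ^ 6 * b₀ by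
    obtain ⟨y, hy, e1, e2⟩ := hs
    obtain ⟨D', hD'⟩ := exists_scale a₀ b₀ y hy
    refine ⟨D'⁻¹ * D, ?_⟩
    rw [mul_smul, hD, e1, e2, ← hD', inv_smul_smul]
  by_cases hB : b₀ = 0
  · have hA : a₀ ≠ 0 := fun hA => h0 ⟨hA, hB⟩
    have hAM : algebraMap F M a₀ ≠ 0 := (map_ne_zero _).2 hA
    have hb0 : b = 0 := by
      apply (algebraMap F M).injective
      rw [hb, hB, map_zero, mul_zero]
    have ha0 : a ≠ 0 := by
      rintro rfl
      rw [map_zero] at ha
      exact mul_ne_zero (pow_ne_zero 4 hu) hAM ha.symm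
    obtain ⟨y, hy, e⟩ := pow_down h4 (x := a / a₀) (div_ne_zero ha0 hA) (u := u) (by
      rw [map_div₀, ha, mul_div_assoc, div_self hAM, mul_one])
    refine ⟨y, hy, ?_, ?_⟩
    · rw [← e, div_mul_cancel₀ _ hA]
    · rw [hb0, hB, mul_zero]
  · have hBM : algebraMap F M b₀ ≠ 0 := (map_ne_zero _).2 hB
    have hb0 : b ≠ 0 := by
      rintro rfl
      rw [map_zero] at hb
      exact mul_ne_zero (pow_ne_zero 6 hu) hBM hb.symm
    by_cases hA : a₀ = 0
    · have ha0 : a = 0 := by
        apply (algebraMap F M).injective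
        rw [ha, hA, map_zero, mul_zero]
      obtain ⟨y, hy, e⟩ := pow_down h (x := b / b₀) (div_ne_zero hb0 hB) (u := u) (by
        rw [map_div₀, hb, mul_div_assoc, div_self hBM, mul_one])
      refine ⟨y, hy, ?_, ?_⟩
      · rw [ha0, hA, mul_zero]
      · rw [← e, div_mul_cancel₀ _ hB]
    · have hAM : algebraMap F M a₀ ≠ 0 := (map_ne_zero _).2 hA
      have ha0 : a ≠ 0 := by
        rintro rfl
        rw [map_zero] at ha
        exact mul_ne_zero (pow_ne_zero 4 hu) hAM ha.symm
      obtain ⟨e, he⟩ : ∃ e : F, e = (b / b₀) / (a / a₀) := ⟨_, rfl⟩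
      have he0 : e ≠ 0 := by
        rw [he]
        exact div_ne_zero (div_ne_zero hb0 hB) (div_ne_zero ha0 hA)
      have haM : algebraMap F M (a / a₀) = u ^ 4 := by
        rw [map_div₀, ha, mul_div_assoc, div_self hAM, mul_one]
      have hbM : algebraMap F M (b / b₀) = u ^ 6 := by
        rw [map_div₀, hb, mul_div_assoc, div_self hBM, mul_one]
      have heM : u ^ 2 = algebraMap F M e := by
        rw [he, map_div₀, haM, hbM]
        field_simp
      obtain ⟨y, hy, e1⟩ := pow_down h2 he0 heM
      have e2 : algebraMap F M y ^ 2 = u ^ 2 := by rw [← map_pow, ← e1, heM]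
      have hya : a / a₀ = y ^ 4 := by
        apply (algebraMap F M).injective
        rw [haM, map_pow]
        calc u ^ 4 = (u ^ 2) ^ 2 := by ring
          _ = (algebraMap F M y ^ 2) ^ 2 := by rw [e2]
          _ = _ := by ring
      have hyb : b / b₀ = y ^ 6 := by
        apply (algebraMap F M).injective
        rw [hbM, map_pow]
        calc u ^ 6 = (u ^ 2) ^ 3 := by ring
          _ = (algebraMap F M y ^ 2) ^ 3 := by rw [e2]
          _ = _ := by ring
      refine ⟨y, hy, ?_, ?_⟩
      · rw [← hya, div_mul_cancel₀ _ hA]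
      · rw [← hyb, div_mul_cancel₀ _ hB]

/-- an isomorphism over `L` is defined over the fields `F` between `F₀` and `L` -/
theorem iso_down {ℓ : ℕ} (h6 : ℓ.Coprime 6) (F₀ L M : Type*) [Field F₀] [NumberField F₀]
    [Field L] [NumberField L] [Field M] [NumberField M]
    [Algebra F₀ L] [Algebra L M] [Algebra F₀ M] [IsScalarTower F₀ L M] (n : ℕ)
    (hM : finrank F₀ M = ℓ ^ n) (N F : Type*) [Field N] [NumberField N] [Field F] [NumberField F]
    [Algebra N F] [Algebra N L] [Algebra F L] [Algebra F₀ F] [IsScalarTower N F L]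
    [IsScalarTower F₀ F L] {a b : F₀} (h0 : ¬ (a = 0 ∧ b = 0)) {W : WeierstrassCurve N}
    {C : VariableChange L} (hC : C • W.baseChange L = crv (algebraMap F₀ L a) (algebraMap F₀ L b)) :
    ∃ D₀ : VariableChange F, D₀ • W.map (algebraMap N F) =
      crv (algebraMap F₀ F a) (algebraMap F₀ F b) := by
  let aFM : Algebra F M := ((algebraMap L M).comp (algebraMap F L)).toAlgebra
  have t1 : IsScalarTower F₀ F M := IsScalarTower.of_algebraMap_eq fun x => by
    change algebraMap F₀ M x = algebraMap L M (algebraMap F L (algebraMap F₀ F x))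
    rw [← IsScalarTower.algebraMap_apply F₀ F L, ← IsScalarTower.algebraMap_apply F₀ L M]
  have hfd : FiniteDimensional F M := Module.Finite.of_restrictScalars_finite ℚ F M
  have hdv : finrank F M ∣ ℓ ^ n := by
    rw [← hM, ← Module.finrank_mul_finrank F₀ F M]
    exact dvd_mul_left _ _
  refine cls_down (M := M) (Nat.Coprime.coprime_dvd_left hdv (h6.pow_left n)) ?_
    (W.map (algebraMap N F)) (C.map (algebraMap L M)) ?_
  · rintro ⟨h1, h2⟩
    exact h0 ⟨(map_eq_zero _).1 h1, (map_eq_zero _).1 h2⟩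
  have e1 : (W.map (algebraMap N F)).baseChange M = (W.baseChange L).map (algebraMap L M) := by
    change (W.map (algebraMap N F)).map (algebraMap F M) = (W.map (algebraMap N L)).map _
    rw [WeierstrassCurve.map_map, WeierstrassCurve.map_map]
    congr 1
    refine RingHom.ext fun x => ?_
    change algebraMap L M (algebraMap F L (algebraMap N F x)) = algebraMap L M (algebraMap N L x)
    rw [← IsScalarTower.algebraMap_apply N F L]
  rw [e1, WeierstrassCurve.map_variableChange, hC,
    Pool.Agent.Lib.MP_1a91b9_nuX.LF.crv_map, ← IsScalarTower.algebraMap_apply F₀ L M,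
    ← IsScalarTower.algebraMap_apply F₀ L M, ← IsScalarTower.algebraMap_apply F₀ F M,
    ← IsScalarTower.algebraMap_apply F₀ F M]

end Pool.Agent.Lib.MP_1a91b9_nuY.TF
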