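import Pool.Agent.Lib.MP_1a91b9_nuX.TH.Na

/-!
# Good reduction goes down in the extensions with ramification prime to `12` and to the residue characteristic

`gd_tame`: if a curve `W` over `N` has good reduction at a place `w` of a Galois extension `F` of `N`, and the ramification
index is prime to `12` and to `w`, then `W` has good reduction at the place of `N` below `w`. Proof: the change of variables
is replaced by an average over the inertia group.
-/

set_option autoImplicit false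

namespace Pool.Agent.Lib.MP_1a91b9_nuY.TF

open NumberField IsDedekindDomain WeierstrassCurve Module Pool.Agent.Lib.MP_1a91b9_nuT
open Pool.Agent.Lib.MP_1a91b9_nuX
open Pool.Agent.Lib.MP_1a91b9_nuX.GM (GoodW IntW good_change conj_int inert_mem val_base desc_good)

section
variable {N F : Type*} [Field N] [NumberField N] [Field F] [NumberField F] [Algebra N F]

/-- the scaling -/
theorem exists_scale_val (w : HeightOneSpectrum (𝓞 F))
    (hc : (w.asIdeal.ramificationIdx (𝓞 N)).Coprime 12) {u : F} (hu : u ≠ 0) {D : N} (hD : D ≠ 0)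
    (h : w.valuation F u ^ 12 = w.valuation F (algebraMap N F D)) :
    ∃ y : N, y ≠ 0 ∧ w.valuation F (algebraMap N F y) = w.valuation F u := by
  obtain ⟨e, he⟩ : ∃ e, e = w.asIdeal.ramificationIdx (𝓞 N) := ⟨_, rfl⟩
  rw [← he] at hc
  rw [val_base, ← he] at h
  obtain ⟨a, ha⟩ : ∃ a, a = w.valuation F u := ⟨_, rfl⟩
  obtain ⟨b, hb⟩ : ∃ b, b = (w.under (𝓞 N)).valuation N D := ⟨_, rfl⟩
  have ha0 : a ≠ 0 := by rw [ha]; exact (Valuation.ne_zero_iff _).2 hu
  have hb0 : b ≠ 0 := by rw [hb]; exact (Valuation.ne_zero_iff _).2 hD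
  rw [← ha, ← hb] at h
  have hbez := Nat.gcd_eq_gcd_ab e 12
  rw [hc] at hbez
  obtain ⟨x, hx⟩ : ∃ x, x = Nat.gcdA e 12 := ⟨_, rfl⟩
  obtain ⟨y, hy⟩ : ∃ y, y = Nat.gcdB e 12 := ⟨_, rfl⟩
  rw [← hx, ← hy] at hbez
  have hc1 : (a ^ x * b ^ y) ^ e = a := by
    rw [mul_pow, ← zpow_natCast (a ^ x), ← zpow_natCast (b ^ y), ← zpow_mul, ← zpow_mul,
      mul_comm y, zpow_mul b, zpow_natCast b, ← h, ← zpow_natCast a 12, ← zpow_mul,
      ← zpow_add₀ ha0]
    have e1 : x * (e : ℤ) + ((12 : ℕ) : ℤ) * y = 1 := by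
      rw [mul_comm x]
      exact hbez.symm
    rw [e1, zpow_one]
  obtain ⟨z, hz⟩ := (w.under (𝓞 N)).valuation_surjective N (a ^ x * b ^ y)
  have hz0 : z ≠ 0 := by
    rintro rfl
    rw [map_zero] at hz
    exact mul_ne_zero (zpow_ne_zero _ ha0) (zpow_ne_zero _ hb0) hz.symm
  exact ⟨z, hz0, by rw [val_base, ← he, hz, hc1, ha]⟩

/-- the average over the inertia group -/
theorem exists_avg [IsGalois N F] (w : HeightOneSpectrum (𝓞 F))
    (he : w.valuation F ((w.asIdeal.ramificationIdx (𝓞 N) : ℕ) : F) = 1) {x : F}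
    (hx : ∀ σ : Gal(F/N), (∀ y : 𝓞 F, σ • y - y ∈ w.asIdeal) → w.valuation F (σ x - x) ≤ 1) :
    ∃ z : F, (∀ σ : Gal(F/N), (∀ y : 𝓞 F, σ • y - y ∈ w.asIdeal) → σ z = z) ∧
      w.valuation F (z - x) ≤ 1 := by
  classical
  obtain ⟨e, hee⟩ : ∃ e, e = w.asIdeal.ramificationIdx (𝓞 N) := ⟨_, rfl⟩
  rw [← hee] at he
  have he0 : ((e : ℕ) : F) ≠ 0 := by
    intro h0
    rw [h0, map_zero] at he
    exact zero_ne_one he
  obtain ⟨I, hI⟩ : ∃ I, I = w.asIdeal.inertia Gal(F/N) := ⟨_, rfl⟩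
  have memI : ∀ g : Gal(F/N), g ∈ I ↔ ∀ y : 𝓞 F, g • y - y ∈ w.asIdeal := by
    intro g
    rw [hI]
    exact Iff.rfl
  have hcard : Fintype.card I = e := by
    rw [← Nat.card_eq_fintype_card, hI, LF.card_inertia, hee]
  refine ⟨(e : F)⁻¹ * ∑ τ : I, (τ : Gal(F/N)) x, fun σ hσ => ?_, ?_⟩
  · have hs : ∑ τ : I, σ ((τ : Gal(F/N)) x) = ∑ τ : I, (τ : Gal(F/N)) x :=
      Fintype.sum_equiv (Equiv.mulLeft (⟨σ, (memI σ).2 hσ⟩ : I)) _ _ fun τ => rfl
    rw [map_mul, map_inv₀, map_natCast, map_sum, hs]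
  · have e1 : (e : F)⁻¹ * ∑ τ : I, (τ : Gal(F/N)) x - x =
        (e : F)⁻¹ * ∑ τ : I, ((τ : Gal(F/N)) x - x) := by
      rw [Finset.sum_sub_distrib, Finset.sum_const, Finset.card_univ, hcard, nsmul_eq_mul, mul_sub,
        inv_mul_cancel_left₀ he0]
    rw [e1, map_mul, map_inv₀, he, inv_one, one_mul]
    exact (w.valuation F).map_sum_le fun τ _ => hx _ ((memI _).1 τ.2)

/-- **Good reduction goes down.** -/
theorem gd_tame [IsGalois N F] {W : WeierstrassCurve N} (hΔ : W.Δ ≠ 0)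
    {w : HeightOneSpectrum (𝓞 F)} (hc : (w.asIdeal.ramificationIdx (𝓞 N)).Coprime 12)
    (he : w.valuation F ((w.asIdeal.ramificationIdx (𝓞 N) : ℕ) : F) = 1)
    (h : PG.Gd (W.map (algebraMap N F)) w) : PG.Gd W (w.under (𝓞 N)) := by
  classical
  obtain ⟨C, hC⟩ := h
  -- the scaling
  have hd := hC.disc
  rw [WeierstrassCurve.variableChange_Δ, WeierstrassCurve.map_Δ, map_mul, map_pow,
    Units.val_inv_eq_inv_val, map_inv₀] at hd
  have hvu : w.valuation F (C.u : F) ≠ 0 := (Valuation.ne_zero_iff _).2 C.u.ne_zero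
  have hd' : w.valuation F (C.u : F) ^ 12 = w.valuation F (algebraMap N F W.Δ) := by
    rw [inv_pow] at hd
    exact (eq_of_inv_mul_eq_one hd)
  obtain ⟨y, hy0, hy⟩ := exists_scale_val w hc C.u.ne_zero hΔ hd'
  obtain ⟨Y, hY⟩ : ∃ Y, Y = algebraMap N F y := ⟨_, rfl⟩
  have hY0 : Y ≠ 0 := by rw [hY]; exact (map_ne_zero _).2 hy0
  rw [← hY] at hy
  obtain ⟨W₁, hW₁⟩ : ∃ W₁ : WeierstrassCurve N,
    W₁ = (⟨Units.mk0 y hy0, 0, 0, 0⟩ : VariableChange N) • W := ⟨_, rfl⟩
  have hW₁M : W₁.map (algebraMap N F) =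
      (⟨Units.mk0 Y hY0, 0, 0, 0⟩ : VariableChange F) • W.map (algebraMap N F) := by
    rw [hW₁, ← WeierstrassCurve.map_variableChange]
    congr 1
    ext
    · exact hY.symm
    · exact map_zero _
    · exact map_zero _
    · exact map_zero _
  have h1 : GoodW (w.valuation F)
      ((⟨1, C.r / Y ^ 2, C.s / Y, C.t / Y ^ 3⟩ : VariableChange F) • W₁.map (algebraMap N F)) := by
    have e1 : (⟨1, C.r / Y ^ 2, C.s / Y, C.t / Y ^ 3⟩ : VariableChange F) *
        ⟨Units.mk0 Y hY0, 0, 0, 0⟩ = ⟨Units.mk0 (Y / (C.u : F)) (div_ne_zero hY0 C.u.ne_zero),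
          0, 0, 0⟩ * C := by
      have hu0 : (C.u : F) ≠ 0 := C.u.ne_zero
      rw [WeierstrassCurve.VariableChange.mul_def, WeierstrassCurve.VariableChange.mul_def]
      ext
      · simp only [Units.val_mul, Units.val_one, Units.val_mk0]
        field_simp
      · simp only [Units.val_mk0]
        field_simp
        ring
      · simp only [Units.val_mk0]
        field_simp
        ring
      · simp only [Units.val_mk0]
        field_simp
        ring
    rw [hW₁M, ← mul_smul, e1, mul_smul]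
    refine good_change hC ?_ ?_ ?_ ?_
    · change w.valuation F (Y / (C.u : F)) = 1
      rw [map_div₀, hy, div_self hvu]
    · exact (map_zero _).le.trans zero_le_one
    · exact (map_zero _).le.trans zero_le_one
    · exact (map_zero _).le.trans zero_le_one
  obtain ⟨r, hr⟩ : ∃ r, r = C.r / Y ^ 2 := ⟨_, rfl⟩
  obtain ⟨s, hs⟩ : ∃ s, s = C.s / Y := ⟨_, rfl⟩
  obtain ⟨t, ht⟩ : ∃ t, t = C.t / Y ^ 3 := ⟨_, rfl⟩
  rw [← hr, ← hs, ← ht] at h1
  have shift : ∀ r s t r' s' t' : F, w.valuation F (r' - r) ≤ 1 → w.valuation F (s' - s) ≤ 1 →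
      w.valuation F (t' - t - (r' - r) * s) ≤ 1 → GoodW (w.valuation F)
        ((⟨1, r, s, t⟩ : VariableChange F) • W₁.map (algebraMap N F)) →
      GoodW (w.valuation F)
        ((⟨1, r', s', t'⟩ : VariableChange F) • W₁.map (algebraMap N F)) := by
    intro r s t r' s' t' hr hs ht h
    have e1 : (⟨1, r', s', t'⟩ : VariableChange F) =
        ⟨1, r' - r, s' - s, t' - t - (r' - r) * s⟩ * ⟨1, r, s, t⟩ := by
      rw [WeierstrassCurve.VariableChange.mul_def]
      ext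
      · simp
      · simp
      · simp
      · simp
    rw [e1, mul_smul]
    exact good_change h (by simp) hr hs ht
  -- `r` and `s`
  obtain ⟨r', hr1, hr2⟩ := exists_avg (N := N) w he
    (fun σ hσ => (conj_int (inert_mem hσ) h1.toIntW).1)
  obtain ⟨s', hs1, hs2⟩ := exists_avg (N := N) w he
    (fun σ hσ => (conj_int (inert_mem hσ) h1.toIntW).2.1)
  have h2 := shift r s t r' s' (t + (r' - r) * s) hr2 hs2
    (by
      have e : t + (r' - r) * s - t - (r' - r) * s = 0 := by ring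
      rw [e, map_zero]
      exact zero_le_one) h1
  obtain ⟨t₂, ht₂⟩ : ∃ t₂, t₂ = t + (r' - r) * s := ⟨_, rfl⟩
  rw [← ht₂] at h2
  -- `t`
  obtain ⟨t', ht1, ht2⟩ := exists_avg (N := N) w he (x := t₂) (fun σ hσ => by
    have h4 := (conj_int (inert_mem hσ) h2.toIntW).2.2
    rwa [hr1 σ hσ, sub_self, zero_mul, sub_zero] at h4)
  have h3 := shift r' s' t₂ r' s' t' (by rw [sub_self, map_zero]; exact zero_le_one)
    (by rw [sub_self, map_zero]; exact zero_le_one)
    (by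
      have e : t' - t₂ - (r' - r') * s' = t' - t₂ := by ring
      rwa [e]) h2
  have e5 : (⟨1, r', s', t'⟩ : VariableChange F) = ⟨Units.mk0 1 one_ne_zero, r', s', t'⟩ := by
    ext
    · rfl
    · rfl
    · rfl
    · rfl
  rw [e5] at h3
  obtain ⟨C', hC'⟩ := desc_good (u := 1) (r := r') (s := s') (t := t') one_ne_zero
    (fun σ hσ => ⟨map_one _, hr1 σ hσ, hs1 σ hσ, ht1 σ hσ⟩) h3
  refine ⟨C' * ⟨Units.mk0 y hy0, 0, 0, 0⟩, ?_⟩
  rw [mul_smul, ← hW₁]
  exact hC'

end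

end Pool.Agent.Lib.MP_1a91b9_nuY.TF
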