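import Pool.Agent.Lib.MP_1a91b9_nuX.TH.Gen

/-!
# Twisted base: the L-series of a form of the curve
-/

set_option autoImplicit false

namespace Pool.Agent.Lib.MP_1a91b9_nuY.TF

open NumberField IsDedekindDomain WeierstrassCurve Module Pool.Agent.Lib.MP_1a91b9_nuT
open Pool.Agent.Lib.MP_1a91b9_nuX
open Pool.Agent.Lib.MP_1a91b9_nuX.GL (EllK)
open Pool.Agent.Lib.MP_1a91b9_nuX.PG
open Pool.Agent.Lib.MP_1a91b9_nuX.PH
open Pool.Agent.Lib.MP_1a91b9_nuX.TC (LGoodT)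
open Pool.Agent.Lib.MP_1a91b9_nuX.TG (ConclR)
open Pool.Agent.Lib.MP_1a91b9_nuX.TH (goodP_of ChW)
open Pool.Agent.Lib.MP_1a91b9_nuX.LG (lconcl_K lconcl_N)

variable [CD] [HC]

/-- the form over a field which contains `K` -/
theorem conclR_KT (hE : EllK) {μ : 𝓞 K} (hμ : μ ≠ 0) {N : Type} [Field N] [NumberField N]
    [Algebra K N] {W : WeierstrassCurve N} {M : Ideal (𝓞 N)} {c : Ideal (𝓞 N) → ℂ}
    (hW : AbW W μ) (hc : ChW W M c) (hT : LGoodT N c) (hf : Finite W.toAffine.Point) :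
    ConclR W := by
  obtain ⟨m, hm⟩ := fdatP hE hμ hW
  exact ⟨lconcl_K hm (goodP_of hm hc (PA.fdat_cont hm) hT), hf⟩

/-- the form over a field `N` which does not contain `K`, `F = N K` -/
theorem conclR_NT (hE : EllK) {μ : 𝓞 K} (hμ : μ ≠ 0) {N F : Type} [Field N] [NumberField N]
    [Field F] [NumberField F] [Algebra N F] [Algebra K F] (h2 : finrank N F = 2)
    (hn : ∀ x : N, algebraMap N F x ≠ algebraMap K F om)
    {W : WeierstrassCurve N} {M : Ideal (𝓞 F)} {c : Ideal (𝓞 F) → ℂ}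
    (hW : AbW (W.map (algebraMap N F)) μ) (hc : ChW (W.map (algebraMap N F)) M c)
    (hT : LGoodT F c) (hf : Finite W.toAffine.Point) : ConclR W := by
  obtain ⟨m, hm⟩ := fdatP hE hμ hW
  have hFm : Fm (W.map (algebraMap N F)) := by
    obtain ⟨ι, D, hD, -⟩ := hW
    exact ⟨ι, D, hD⟩
  exact ⟨lconcl_N hm (eulD_P hE h2 hn hFm) (goodP_of hm hc (PA.fdat_cont hm) hT), hf⟩

end Pool.Agent.Lib.MP_1a91b9_nuY.TF
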