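import Pool.Agent.Lib.MP_1a91b9_nuY.TF.Gdd

/-!
# The places of good reduction above `c` are not anomalous: the forms of the curve
-/

set_option autoImplicit false

namespace Pool.Agent.Lib.MP_1a91b9_nuY.TF

open NumberField IsDedekindDomain WeierstrassCurve Module Pool.Agent.Lib.MP_1a91b9_nuT
open Pool.Agent.Lib.MP_1a91b9_nuX
open Pool.Agent.Lib.MP_1a91b9_nuX.GL (EllK)
open Pool.Agent.Lib.MP_1a91b9_nuX.PG (Gd)
open Pool.Agent.Lib.MP_1a91b9_nuX.PH
open Pool.Agent.Lib.MP_1a91b9_nuX.TH (NaW naW_down fm_up)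
open Pool.Agent.Lib.MP_1a91b9_nuT.TG (cop_powN)

universe u

section
variable [CD]

/-- the discriminant of a form of the curve -/
theorem fm_disc {F : Type u} [Field F] [NumberField F] [Algebra K F] {W : WeierstrassCurve F}
    (hW : Fm W) : W.Δ ≠ 0 := by
  obtain ⟨ι, D, hD⟩ := hW
  intro h0
  have h1 := congrArg WeierstrassCurve.Δ hD
  rw [WeierstrassCurve.variableChange_Δ, WeierstrassCurve.map_Δ, WeierstrassCurve.map_Δ, h0,
    map_zero] at h1
  rcases mul_eq_zero.1 h1 with h | h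
  · exact (pow_ne_zero 12 (Units.ne_zero _)) h
  · exact (map_ne_zero (algebraMap K GL.Kb)).2 (LF.E_Δ_ne (N := K)) h

variable {N F : Type u} [Field N] [NumberField N] [Algebra K N] [Field F] [NumberField F]
  [Algebra K F] [Algebra N F] [IsScalarTower K N F]

/-- the condition goes up in a Galois extension of degree a power of `ℓ` -/
theorem naW_upV (hE : EllK) {ℓ : ℕ} (hℓ : ℓ.Prime) (h6 : ℓ.Coprime 6) {c : 𝓞 K}
    (hc : IsCoprime c (ℓ : 𝓞 K)) [IsGalois N F] {n : ℕ} (hd : finrank N F = ℓ ^ n)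
    {V : WeierstrassCurve N} (hV : Fm V) (h : NaW ℓ c V) : NaW ℓ c (V.map (algebraMap N F)) := by
  intro w hw hg
  obtain ⟨h1, -⟩ := MP_1a91b9_nuT3.EF.ef_dvd (w.under (𝓞 N)) w rfl
  have h3 : w.asIdeal.ramificationIdx (𝓞 N) ∣ ℓ ^ n := by
    rw [← hd]
    exact LF.ram_dvd w
  have h4 : (ℓ ^ n).Coprime 12 := by
    have h5 := (h6.pow_left n).pow_right 4
    exact Nat.Coprime.coprime_dvd_right (by norm_num) h5
  have hℓw : w.valuation F ((ℓ : ℕ) : F) = 1 := by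
    obtain ⟨a, b, hab⟩ := hc.map (algebraMap (𝓞 K) (𝓞 F))
    have h5 : (algebraMap (𝓞 K) (𝓞 F)) c ∈ w.asIdeal := hw
    have h6 : ((ℓ : ℕ) : 𝓞 F) ∉ w.asIdeal := by
      intro h7
      apply w.isPrime.ne_top
      rw [Ideal.eq_top_iff_one, ← hab, map_natCast]
      exact w.asIdeal.add_mem (w.asIdeal.mul_mem_left a h5) (w.asIdeal.mul_mem_left b h7)
    have h8 : w.valuation F (algebraMap (𝓞 F) F ((ℓ : ℕ) : 𝓞 F)) = 1 := by
      refine le_antisymm (w.valuation_le_one _) (not_lt.1 fun h9 => h6 ?_)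
      exact (GM.val_lt_mem (w := w) ((ℓ : ℕ) : 𝓞 F)).1 h9
    rwa [map_natCast] at h8
  have he : w.valuation F ((w.asIdeal.ramificationIdx (𝓞 N) : ℕ) : F) = 1 := by
    obtain ⟨m, -, hm⟩ := (Nat.dvd_prime_pow hℓ).1 h3
    rw [hm, Nat.cast_pow, map_pow, hℓw, one_pow]
  have hg0 : Gd V (w.under (𝓞 N)) :=
    gd_tame (fm_disc hV) (Nat.Coprime.coprime_dvd_left h3 h4) he hg
  have e2 := hv_up (F' := F) hE hV w hg0
  rw [e2]
  refine cop_powN hℓ (h _ ?_ hg0) (n := n) ?_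
  · have e : MP_1a91b9_nuG.up c F = algebraMap (𝓞 N) (𝓞 F) (MP_1a91b9_nuG.up c N) :=
      (MP_1a91b9_nuT3.S8.algebraMap_tower (F := N) (F' := F) c).symm
    rw [e] at hw
    exact hw
  · rw [← hd]
    exact h1

end

section
variable [CD] {F₀ L M N : Type u} [Field F₀] [NumberField F₀] [Algebra K F₀] [Field L]
  [NumberField L] [Algebra K L] [Field M] [NumberField M] [Algebra K M] [Algebra F₀ L]
  [Algebra F₀ M] [Algebra L M] [IsScalarTower K F₀ L] [IsScalarTower K F₀ M]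
  [IsScalarTower K L M] [IsScalarTower F₀ L M]

/-- the condition for the fields of the tower -/
theorem naW_tower (hE : EllK) {ℓ : ℕ} (hℓ : ℓ.Prime) (h6 : ℓ.Coprime 6) {c : 𝓞 K}
    (hc : IsCoprime c (ℓ : 𝓞 K)) [IsGalois F₀ M] {n : ℕ} (hd : finrank F₀ M = ℓ ^ n)
    {V : WeierstrassCurve F₀} (hV : Fm (V.map (algebraMap F₀ L))) (h : NaW ℓ c V) :
    NaW ℓ c (V.map (algebraMap F₀ L)) := by
  have h1 := naW_upV (F := M) hE hℓ h6 hc hd (fm_up hV) h
  have e : V.map (algebraMap F₀ M) = (V.map (algebraMap F₀ L)).map (algebraMap L M) := by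
    rw [WeierstrassCurve.map_map, ← IsScalarTower.algebraMap_eq]
  rw [e] at h1
  exact naW_down hE hV h1

end

end Pool.Agent.Lib.MP_1a91b9_nuY.TF
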