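import Pool.Agent.Lib.MP_1a91b9_nuW.QW.GluN
import Pool.Agent.Lib.MP_1a91b9_nuY.TF.Frm
import Pool.Agent.Lib.MP_1a91b9_nuY.TF.Na
import Pool.Agent.Lib.MP_1a91b9_nuY.TF.LG

/-!
# Twisted base: the formula for a form `W` over `N` of the curve `W₀ : y² = x³ + a₀ x + b₀` over `F₀`

`F = N F₀`; `V` is the curve `W₀` over `F`, and `W` becomes isomorphic to `V` over `F`.
-/

set_option autoImplicit false

namespace Pool.Agent.Lib.MP_1a91b9_nuY.TF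

open NumberField IsDedekindDomain WeierstrassCurve Module
open Pool.Agent.Lib.MP_1a91b9_nuT hiding cj
open Pool.Agent.Lib.MP_1a91b9_nuX Pool.Agent.Lib.MP_1a91b9_nuX.QW
open Pool.Agent.Lib.MP_1a91b9_nuW.ZD (VAL WOk)
open Pool.Agent.Lib.MP_1a91b9_nuW.QW (UnitD concl_KD concl_ND)
open Pool.Agent.Lib.MP_1a91b9_nuX.DB Pool.Agent.Lib.MP_1a91b9_nuX.DX Pool.Agent.Lib.MP_1a91b9_nuX.GL
open Pool.Agent.Lib.MP_1a91b9_nuG (up)
open Pool.Agent.Lib.MP_1a91b9_nuX.PG (Gd)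
open Pool.Agent.Lib.MP_1a91b9_nuX.PH (AbW Fm)
open Pool.Agent.Lib.MP_1a91b9_nuX.TG Pool.Agent.Lib.MP_1a91b9_nuX.TC
open Pool.Agent.Lib.MP_1a91b9_nuX.TH (NaW ChW gdA_of_gd gd_down galois_two)
open Pool.Agent.Lib.MP_1a91b9_nuX.AN
open Pool.Agent.Lib.MP_1a91b9_nuX.PX (pts_down sha_down_gal)
open Pool.Agent.Lib.MP_1a91b9_nuT.PL (Ab Concl)
open Pool.Agent.Lib.MP_1a91b9_nuT.Per (cv)
open Pool.Agent.Lib.MP_1a91b9_nuT3.S9 (ShaP)

variable [CD] [HC]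

/-- **The formula over a field which contains `K`.** -/
theorem thm_KT (hE : EllK) {ℓ : ℕ} [hℓ : Fact ℓ.Prime] {μ : 𝓞 K} (N F F₀ G₀ : Type) [Field N]
    [NumberField N] [Algebra K N] [Field F] [NumberField F] [Algebra K F] [Field F₀]
    [NumberField F₀] [Algebra K F₀] [Field G₀] [NumberField G₀] [Algebra K G₀] [Algebra N F]
    [Algebra F₀ F] [Algebra F₀ G₀] [IsScalarTower K N F] [IsScalarTower K F₀ F]
    [IsScalarTower K F₀ G₀] [IsGalois K G₀] [DecidableEq G₀] {T : Pt G₀} (hT : AbT μ K T)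
    (hgen : IntermediateField.adjoin N (Set.range (algebraMap F₀ F)) = ⊤)
    {a₀ b₀ : F₀} {u₀ : G₀} {θ₀ : Gal(G₀/F₀) →* (𝓞 K)ˣ} (hs₀ : ScD a₀ b₀ u₀ θ₀) {g : 𝓞 K}
    (hg0 : g ≠ 0) (hg : gB μ ∣ g) (hgℓ : IsCoprime g (ℓ : 𝓞 K)) (hμ : ¬ ℓ ∣ nAb μ)
    (hV : VAL.{0} ℓ) (h3 : WOk ℓ F) (hbad : ¬ (ℓ : ℤ) ∣ CD.bad)
    (hunit : UnitZY ℓ F (fun I => psT F₀ T g θ₀ (Ideal.relNorm (𝓞 F₀) I)))
    {V : WeierstrassCurve F} (hVd : V = cv (algebraMap F₀ F a₀) (algebraMap F₀ F b₀))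
    (hfin : Finite V.toAffine.Point) (hcop : (Nat.card V.toAffine.Point).Coprime ℓ)
    (hsha : Subsingleton (ShaP ℓ V)) (hna : NaW ℓ g V)
    {W : WeierstrassCurve N} {C : VariableChange F} (hC : C • W.baseChange F = V) :
    ConclR W ∧ Concl ℓ W := by
  classical
  have hC' : C • W.map (algebraMap N F) = V := hC
  have hGal : IsGalois N F := TC.galois_sub N F F₀ G₀ hT hgen
  have hC2 : C • W.baseChange F = LF.crv (algebraMap F₀ F a₀) (algebraMap F₀ F b₀) := by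
    rw [hC, hVd]
    rfl
  obtain ⟨a, b, c, D, hD, hc, ha, hb⟩ := LF.exists_shortC W C hC2
  have hD' : D • W = cv a b := hD
  obtain ⟨G, _, _, _, _, t1, _, T', u, θ, hT', hs, hch, hW, hgd, hU⟩ :=
    exists_form hE N F F₀ G₀ hT hgen hs₀ hg0 hg hc ha hb hD'
  have hUY := hU ℓ hℓ.out hbad hV hgℓ h3 hunit
  have hUD : UnitD ℓ N (cT N T' (Ideal.span {up g N}) (thC θ)) := unitZT_iff.2 hUY
  have hFm : Fm W := by
    obtain ⟨ι, D', hD'', -⟩ := hW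
    exact ⟨ι, D', hD''⟩
  have hnaW : NaW ℓ g W := TH.naW_down hE hFm (TH.naW_iso C hC' hna)
  obtain ⟨R, ρ, hR, hRs, hR1, hρ⟩ := TH.eul_K hE hT.ne hW hch hgℓ hnaW
  obtain ⟨hfW, hdvd⟩ := pts_down (N := N) (N' := F) hfin W C hC
  have hcW : (Nat.card W.toAffine.Point).Coprime ℓ := Nat.Coprime.coprime_dvd_left hdvd hcop
  have hS : Subsingleton (ShaP ℓ W) := sha_down_gal (N := N) (N' := F) hsha hfin hcop W C hC
  refine ⟨conclR_KT hE hT.ne hW hch (lgoodT_iff.2 (hUY.lgood hℓ.out)) hfW, ?_⟩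
  exact concl_KD hbad hT' hs hg0 hg hD' hUD
    (fun v hv => gdA_of_gd hD' (hgd ℓ hℓ.out hbad hμ v hv)) hS hfW hcW hR hRs hR1 hρ

/-- **The formula over a field `N` which does not contain `K`, `N' = N K`.** -/
theorem thm_NT (hE : EllK) {ℓ : ℕ} [hℓ : Fact ℓ.Prime] {μ : 𝓞 K} (N N' F F₀ G₀ : Type) [Field N]
    [NumberField N] [Field N'] [NumberField N'] [Algebra N N'] [Algebra K N']
    [Field F] [NumberField F] [Algebra K F] [Field F₀]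
    [NumberField F₀] [Algebra K F₀] [Field G₀] [NumberField G₀] [Algebra K G₀] [Algebra N F]
    [Algebra N' F] [IsScalarTower N N' F] [Algebra F₀ F] [Algebra F₀ G₀] [IsScalarTower K N' F]
    [IsScalarTower K F₀ F] [IsScalarTower K F₀ G₀] [IsGalois K G₀] [DecidableEq G₀] {T : Pt G₀}
    (hT : AbT μ K T) (hL2 : finrank N N' = 2)
    (hn : ∀ x : N, algebraMap N N' x ≠ algebraMap K N' om)
    (hgen : IntermediateField.adjoin N' (Set.range (algebraMap F₀ F)) = ⊤)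
    {a₀ b₀ : F₀} {u₀ : G₀} {θ₀ : Gal(G₀/F₀) →* (𝓞 K)ˣ} (hs₀ : ScD a₀ b₀ u₀ θ₀) {g : ℕ}
    (hg0 : g ≠ 0) (hg : gB μ ∣ (g : 𝓞 K)) (hgℓ : g.Coprime ℓ) (hμ : ¬ ℓ ∣ nAb μ)
    (hV : VAL.{0} ℓ) (h3 : WOk ℓ F) (hbad : ¬ (ℓ : ℤ) ∣ CD.bad)
    (hunit : UnitZY ℓ F (fun I => psT F₀ T (g : 𝓞 K) θ₀ (Ideal.relNorm (𝓞 F₀) I)))
    {V : WeierstrassCurve F} (hVd : V = cv (algebraMap F₀ F a₀) (algebraMap F₀ F b₀))
    (hfin : Finite V.toAffine.Point) (hcop : (Nat.card V.toAffine.Point).Coprime ℓ)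
    (hsha : Subsingleton (ShaP ℓ V)) (hna : NaW ℓ (g : 𝓞 K) V)
    {W : WeierstrassCurve N} {C : VariableChange F} (hC : C • W.baseChange F = V) :
    ConclR W ∧ Concl ℓ W := by
  classical
  have hg0' : (g : 𝓞 K) ≠ 0 := Nat.cast_ne_zero.2 hg0
  have hgℓ' : IsCoprime (g : 𝓞 K) (ℓ : 𝓞 K) := Nat.Coprime.cast hgℓ
  have hC' : C • (W.map (algebraMap N N')).map (algebraMap N' F) = V := by
    rw [bc_map]
    exact hC
  have hGal' : IsGalois N' F := TC.galois_sub N' F F₀ G₀ hT hgen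
  have hC2 : C • W.baseChange F = LF.crv (algebraMap F₀ F a₀) (algebraMap F₀ F b₀) := by
    rw [hC, hVd]
    rfl
  obtain ⟨a, b, c, D, hD, hc, ha, hb⟩ := LF.exists_shortC W C hC2
  have hD' : D • W = cv a b := hD
  have hD'' : D.map (algebraMap N N') • W.map (algebraMap N N') =
      cv (algebraMap N N' a) (algebraMap N N' b) := by
    rw [WeierstrassCurve.map_variableChange, hD']
    exact LF.crv_map _ a b
  obtain ⟨G, _, _, _, _, t1, _, T', u, θ, hT', hs, hch, hW, hgd, hU⟩ :=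
    exists_form (N := N') hE F F₀ G₀ hT hgen hs₀ hg0' hg hc
      (by rw [← IsScalarTower.algebraMap_apply, ha])
      (by rw [← IsScalarTower.algebraMap_apply, hb]) hD''
  have hUY := hU ℓ hℓ.out hbad hV hgℓ' h3 hunit
  have hUD : UnitD ℓ N' (cT N' T' (Ideal.span {up (g : 𝓞 K) N'}) (thC θ)) := unitZT_iff.2 hUY
  have hFm : Fm (W.map (algebraMap N N')) := by
    obtain ⟨ι, D', hD'', -⟩ := hW
    exact ⟨ι, D', hD''⟩
  have hnaW : NaW ℓ (g : 𝓞 K) (W.map (algebraMap N N')) :=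
    TH.naW_down hE hFm (TH.naW_iso C hC' hna)
  obtain ⟨R, ρ, hR, hRs, hR1, hρ⟩ := TH.eul_N hE hL2 hn hT.ne hW hch hgℓ hnaW
  obtain ⟨hfW, hdvd⟩ := pts_down (N := N) (N' := F) hfin W C hC
  have hcW : (Nat.card W.toAffine.Point).Coprime ℓ := Nat.Coprime.coprime_dvd_left hdvd hcop
  obtain ⟨hfW', hdvd'⟩ := pts_down (N := N') (N' := F) hfin (W.map (algebraMap N N')) C hC'
  have hcW' : (Nat.card (W.map (algebraMap N N')).toAffine.Point).Coprime ℓ :=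
    Nat.Coprime.coprime_dvd_left hdvd' hcop
  have hS' : Subsingleton (ShaP ℓ (W.map (algebraMap N N'))) :=
    sha_down_gal (N := N') (N' := F) hsha hfin hcop _ C hC'
  have hG2 : IsGalois N N' := isGalois_two hL2
  have hS : Subsingleton (ShaP ℓ W) :=
    sha_down_gal (N := N) (N' := N') hS' hfW' hcW' W 1 (one_smul _ _)
  refine ⟨conclR_NT hE hT.ne hL2 hn hW hch (lgoodT_iff.2 (hUY.lgood hℓ.out)) hfW, ?_⟩
  refine concl_ND hbad hL2 hn hT' hs hg0' hg hD' hUD (fun v hv => gdA_of_gd hD' ?_) hS hfW hcW hR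
    hRs hR1 hρ
  obtain ⟨w, rfl⟩ := CF.exists_over (k := N) (N := N') v
  refine gd_down (F := N') (Pool.Agent.Lib.MP_1a91b9_nuW.TH.not_ram_two hℓ.out hbad hL2 hn hv)
    (hgd ℓ hℓ.out hbad hμ w ?_)
  have hv' : algebraMap (𝓞 N) (𝓞 N') (ℓ : 𝓞 N) ∈ w.asIdeal := hv
  rwa [map_natCast] at hv'

end Pool.Agent.Lib.MP_1a91b9_nuY.TF
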