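import Pool.Agent.Lib.MP_1a91b9_nuX.TG.Dat
import Pool.Agent.Lib.MP_1a91b9_nuY.TX.Sub
import Pool.Agent.Lib.MP_1a91b9_nuY.TF.Cls
import Pool.Agent.Lib.MP_1a91b9_nuY.TF.Glu

/-!
# Twisted base: the forms over the subfields of `L`

`BaseT`: what is needed about the base field and the prime `ℓ`. `concl_subT`: the conclusion for all the subfields `N` of the
field `L` and all the curves `W` over `N` which become isomorphic over `L` to the curve `y² = x³ + a x + b` over `F₀`.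
-/

set_option autoImplicit false

namespace Pool.Agent.Lib.MP_1a91b9_nuY.TF

open NumberField IsDedekindDomain WeierstrassCurve Module
open Pool.Agent.Lib.MP_1a91b9_nuT hiding cj
open Pool.Agent.Lib.MP_1a91b9_nuX Pool.Agent.Lib.MP_1a91b9_nuX.QW
open Pool.Agent.Lib.MP_1a91b9_nuW.ZD (VAL WOk)
open Pool.Agent.Lib.MP_1a91b9_nuX.DB Pool.Agent.Lib.MP_1a91b9_nuX.GL
open Pool.Agent.Lib.MP_1a91b9_nuX.PH (Fm)
open Pool.Agent.Lib.MP_1a91b9_nuX.TG
open Pool.Agent.Lib.MP_1a91b9_nuX.TH (NaW)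
open Pool.Agent.Lib.MP_1a91b9_nuT.PL (Concl)
open Pool.Agent.Lib.MP_1a91b9_nuT.Per (cv)
open Pool.Agent.Lib.MP_1a91b9_nuT3.S9 (ShaP)
open Pool.Agent.Lib.MP_1a91b9_nuY.TX (TowF RamF)

variable [CD]

section
variable {F₀ G₀ F : Type} [Field F₀] [NumberField F₀] [Algebra K F₀] [Field G₀] [NumberField G₀]
  [Algebra K G₀] [Algebra F₀ G₀] [IsScalarTower K F₀ G₀] [Field F] [NumberField F] [Algebra K F]
  [Algebra F₀ F] [IsScalarTower K F₀ F]

/-- the curve `y² = x³ + a x + b` over an extension of `F₀` is a form of the curve of `CD` -/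
theorem fm_sc {a b : F₀} {u : G₀} {θ : Gal(G₀/F₀) →* (𝓞 K)ˣ} (hs : ScD a b u θ) :
    Fm ((cv a b).map (algebraMap F₀ F)) := by
  have hF : Algebra.IsAlgebraic K F := by
    have h1 : Algebra.IsAlgebraic ℚ F := Algebra.IsAlgebraic.of_finite ℚ F
    exact Algebra.IsAlgebraic.tower_top (K := ℚ) K
  obtain ⟨ι⟩ : Nonempty (F →ₐ[K] Kb) := ⟨IsAlgClosed.lift⟩
  obtain ⟨j, hj⟩ : ∃ j : G₀ →ₐ[K] Kb, ∀ x : F₀,
      j (algebraMap F₀ G₀ x) = ι (algebraMap F₀ F x) := by
    let a0 : Algebra F₀ Kb := (ι.comp (IsScalarTower.toAlgHom K F₀ F)).toRingHom.toAlgebra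
    have t0 : IsScalarTower K F₀ Kb := IsScalarTower.of_algebraMap_eq fun x =>
      ((ι.comp (IsScalarTower.toAlgHom K F₀ F)).commutes x).symm
    have h1 : Algebra.IsAlgebraic ℚ G₀ := Algebra.IsAlgebraic.of_finite ℚ G₀
    have h2 : Algebra.IsAlgebraic F₀ G₀ := Algebra.IsAlgebraic.tower_top (K := ℚ) F₀
    obtain ⟨j₀⟩ : Nonempty (G₀ →ₐ[F₀] Kb) := ⟨IsAlgClosed.lift⟩
    exact ⟨j₀.restrictScalars K, fun x => j₀.commutes x⟩
  have hu : j u ≠ 0 := (map_ne_zero _).2 hs.ne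
  obtain ⟨D, hD⟩ := LF.exists_scale ((CD.A : ℤ) : Kb) ((CD.B : ℤ) : Kb) (j u) hu
  refine ⟨ι, D, ?_⟩
  have e1 : EF Kb = LF.crv ((CD.A : ℤ) : Kb) ((CD.B : ℤ) : Kb) := by
    refine WeierstrassCurve.ext ?_ ?_ ?_ ?_ ?_
    · exact map_zero (algebraMap K Kb)
    · exact map_zero (algebraMap K Kb)
    · exact map_zero (algebraMap K Kb)
    · exact map_intCast (algebraMap K Kb) _
    · exact map_intCast (algebraMap K Kb) _
  have e2 : (cv a b).map (algebraMap F₀ F) = LF.crv (algebraMap F₀ F a) (algebraMap F₀ F b) :=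
    LF.crv_map _ a b
  rw [e1, hD, e2]
  have e3 : (LF.crv (algebraMap F₀ F a) (algebraMap F₀ F b)).map (ι : F →+* Kb) =
      LF.crv (ι (algebraMap F₀ F a)) (ι (algebraMap F₀ F b)) := LF.crv_map _ _ _
  have h1 := congrArg j hs.ha
  have h2 := congrArg j hs.hb
  rw [hj, map_mul, map_pow, map_intCast] at h1 h2
  rw [e3, h1, h2, mul_comm (j u ^ 4), mul_comm (j u ^ 6)]

end

variable [HC]

/-- What is needed about the curve `W₀` over a field `F` of the tower. -/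
structure GY (ℓ : ℕ) [Fact ℓ.Prime] (F₀ F : Type) [Field F₀] [NumberField F₀] [Field F]
    [NumberField F] [Algebra K F] [Algebra F₀ F] (Ψ : Ideal (𝓞 F₀) → 𝓞 K)
    (W₀ : WeierstrassCurve F₀) : Prop where
  unitZ : UnitZY ℓ F (fun I => Ψ (Ideal.relNorm (𝓞 F₀) I))
  wok : WOk ℓ F
  fin : Finite (W₀.map (algebraMap F₀ F)).toAffine.Point
  cop : (Nat.card (W₀.map (algebraMap F₀ F)).toAffine.Point).Coprime ℓ
  sha : Subsingleton (ShaP ℓ (W₀.map (algebraMap F₀ F)))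

/-- What is needed about the base field and the prime `ℓ`. -/
structure BaseT (μ : 𝓞 K) (g ℓ : ℕ) [Fact ℓ.Prime] {F₀ G₀ : Type} [Field F₀] [NumberField F₀]
    [Algebra K F₀] [Field G₀] [NumberField G₀] [Algebra K G₀] [Algebra F₀ G₀]
    [IsScalarTower K F₀ G₀] [DecidableEq G₀] (T : Pt G₀) (a b : F₀) (u : G₀)
    (θ : Gal(G₀/F₀) →* (𝓞 K)ˣ) : Prop where
  gal : IsGalois K G₀
  tor : AbT μ K T
  sc : ScD a b u θ
  nz : ¬ (a = 0 ∧ b = 0)
  gne : g ≠ 0
  gB : gB μ ∣ (g : 𝓞 K)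
  gl : g.Coprime ℓ
  mu : ¬ ℓ ∣ nAb μ
  bad : ¬ (ℓ : ℤ) ∣ CD.bad
  val : VAL.{0} ℓ
  naw : NaW ℓ (g : 𝓞 K) (cv a b)
  gy : ∀ (F : Type) [Field F] [NumberField F] [Algebra K F] [Algebra F₀ F]
    [IsScalarTower K F₀ F], TowF F₀ (psT F₀ T (g : 𝓞 K) θ) ℓ F →
      GY ℓ F₀ F (psT F₀ T (g : 𝓞 K) θ) (cv a b)

section
variable (hE : EllK) {μ : 𝓞 K} {g ℓ : ℕ} [hℓ : Fact ℓ.Prime] {F₀ G₀ : Type} [Field F₀]
  [NumberField F₀] [Algebra K F₀] [Field G₀] [NumberField G₀] [Algebra K G₀] [Algebra F₀ G₀]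
  [IsScalarTower K F₀ G₀] [DecidableEq G₀] {T : Pt G₀} {a b : F₀} {u : G₀}
  {θ : Gal(G₀/F₀) →* (𝓞 K)ˣ} (h : BaseT μ g ℓ T a b u θ) (L M : Type) [Field L] [NumberField L]
  [Field M] [NumberField M] [Algebra K L] [Algebra K M] [Algebra F₀ L] [Algebra L M]
  [Algebra F₀ M] [IsScalarTower K F₀ L] [IsScalarTower K F₀ M] [IsScalarTower F₀ L M]
  [IsGalois F₀ M] (n : ℕ) (hM : finrank F₀ M = ℓ ^ n)
  (hL : RamF ℓ F₀ L (psT F₀ T (g : 𝓞 K) θ))
include hE h hM hL

/-- The field `F = N F₀` for a subfield `N` of `L` which contains `K`. -/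
theorem datT_of_K (N : Type) [Field N] [NumberField N] [Algebra K N] [Algebra N L]
    [IsScalarTower K N L] {W : WeierstrassCurve N} {C : VariableChange L}
    (hC : C • W.baseChange L = cv (algebraMap F₀ L a) (algebraMap F₀ L b)) :
    ∃ (F : Type) (_ : Field F) (_ : NumberField F) (_ : Algebra K F) (_ : Algebra N F)
      (_ : Algebra F₀ F) (_ : IsScalarTower K N F) (_ : IsScalarTower K F₀ F)
      (D₀ : VariableChange F), IntermediateField.adjoin N (Set.range (algebraMap F₀ F)) = ⊤ ∧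
      GY ℓ F₀ F (psT F₀ T (g : 𝓞 K) θ) (cv a b) ∧
      D₀ • W.map (algebraMap N F) = cv (algebraMap F₀ F a) (algebraMap F₀ F b) ∧
      NaW ℓ (g : 𝓞 K) (cv (algebraMap F₀ F a) (algebraMap F₀ F b)) := by
  have h6 := coprime_six hℓ.out (five_le hℓ.out h.bad)
  have hGK := h.gal
  have hG₀ : IsGalois F₀ G₀ := IsGalois.tower_top_of_isGalois K F₀ G₀
  have hΨ := hf_psT (θ := θ) h.tor.mid (Nat.cast_ne_zero.2 h.gne) h.gB
  obtain ⟨F, _, _, _, _, _, _, t1, t2, t3, t4, t5, hgen⟩ := exists_NF F₀ L N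
  have hT' := TX.tower_subF hℓ.out F₀ L M hΨ n hM hL F
  obtain ⟨D₀, hD₀⟩ := iso_down h6 F₀ L M n hM N F h.nz hC
  let aFM : Algebra F M := ((algebraMap L M).comp (algebraMap F L)).toAlgebra
  have tKLM : ∀ x : K, algebraMap L M (algebraMap K L x) = algebraMap K M x := by
    intro x
    rw [IsScalarTower.algebraMap_apply K F₀ L, ← IsScalarTower.algebraMap_apply F₀ L M,
      ← IsScalarTower.algebraMap_apply K F₀ M]
  have t6 : IsScalarTower K F M :=
    IsScalarTower.of_algebraMap_eq (R := K) (S := F) (A := M) fun x => by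
      change algebraMap K M x = algebraMap L M (algebraMap F L (algebraMap K F x))
      rw [← IsScalarTower.algebraMap_apply K F L, tKLM]
  have t7 : IsScalarTower F₀ F M := IsScalarTower.of_algebraMap_eq fun x => by
    change algebraMap F₀ M x = algebraMap L M (algebraMap F L (algebraMap F₀ F x))
    rw [← IsScalarTower.algebraMap_apply F₀ F L, ← IsScalarTower.algebraMap_apply F₀ L M]
  have hna := naW_tower (F₀ := F₀) (L := F) (M := M) hE hℓ.out h6
    (c := (g : 𝓞 K)) (Nat.Coprime.cast h.gl) hM (V := cv a b) (fm_sc h.sc) h.naw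
  have e1 : (cv a b).map (algebraMap F₀ F) = cv (algebraMap F₀ F a) (algebraMap F₀ F b) :=
    LF.crv_map _ a b
  rw [e1] at hna
  exact ⟨F, inferInstance, inferInstance, inferInstance, inferInstance, inferInstance,
    inferInstance, inferInstance, D₀, hgen, h.gy F hT', hD₀, hna⟩

/-- **The conclusion.** -/
theorem concl_subT (N : Type) [Field N] [NumberField N] [Algebra N L] (W : WeierstrassCurve N)
    (C : VariableChange L)
    (hC : C • W.baseChange L = cv (algebraMap F₀ L a) (algebraMap F₀ L b)) :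
    ConclR W ∧ Concl ℓ W := by
  have hGK := h.gal
  have hG0 : ((g : ℕ) : 𝓞 K) ≠ 0 := Nat.cast_ne_zero.2 h.gne
  rcases exists_sub L N with ⟨aKN, hst⟩ | ⟨N', _, _, _, _, _, t1, t2, h2, hn⟩
  · obtain ⟨F, _, _, _, _, _, s1, s2, D₀, hgen, hy, hD₀, hna⟩ :=
      datT_of_K hE h L M n hM hL N hC
    have e1 : (cv a b).map (algebraMap F₀ F) = cv (algebraMap F₀ F a) (algebraMap F₀ F b) :=
      LF.crv_map _ a b
    have f1 := hy.fin
    have f2 := hy.cop
    have f3 := hy.sha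
    rw [e1] at f1 f2 f3
    exact thm_KT hE N F F₀ G₀ h.tor hgen h.sc hG0 h.gB (Nat.Coprime.cast h.gl) h.mu h.val hy.wok
      h.bad hy.unitZ rfl f1 f2 f3 hna (C := D₀) hD₀
  · have e1 : (W.map (algebraMap N N')).baseChange L = W.baseChange L := by
      change (W.map (algebraMap N N')).map (algebraMap N' L) = W.map (algebraMap N L)
      rw [WeierstrassCurve.map_map, ← IsScalarTower.algebraMap_eq]
    obtain ⟨F, _, _, _, _, _, s1, s2, D₀, hgen, hy, hD₀, hna⟩ :=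
      datT_of_K hE h L M n hM hL N' (W := W.map (algebraMap N N'))
        (C := C) (by rw [e1]; exact hC)
    have e2 : (cv a b).map (algebraMap F₀ F) = cv (algebraMap F₀ F a) (algebraMap F₀ F b) :=
      LF.crv_map _ a b
    have f1 := hy.fin
    have f2 := hy.cop
    have f3 := hy.sha
    rw [e2] at f1 f2 f3
    let aNF : Algebra N F := ((algebraMap N' F).comp (algebraMap N N')).toAlgebra
    have t3 : IsScalarTower N N' F := IsScalarTower.of_algebraMap_eq fun x => rfl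
    refine thm_NT hE N N' F F₀ G₀ h.tor h2 hn hgen h.sc h.gne h.gB h.gl h.mu h.val hy.wok h.bad
      hy.unitZ rfl f1 f2 f3 hna (C := D₀) ?_
    rw [WeierstrassCurve.map_map] at hD₀
    exact hD₀

end

end Pool.Agent.Lib.MP_1a91b9_nuY.TF
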